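import Pool.Agent.SYZ52.Converse

namespace Pool.Agent.SYZ52

open Complex

variable {V : Type*} [NormedAddCommGroup V] [NormedSpace ℂ V] [FiniteDimensional ℂ V]
variable {H : V →ₗ[ℂ] V →ₗ⋆[ℂ] ℂ} {α : (V ≃ᵃ[ℂ] V) → ℂ} {Γ : Subgroup (V ≃ᵃ[ℂ] V)}

/-- The growth of a section. -/
theorem section_bound (hΓ : IsTorusGroup Γ) (hL : IsOrbiBundle Γ H α) {m : ℕ}
    {θ : V → ℂ} (hsec : IsSection Γ H α m θ) :
    ∃ C : ℝ, ∀ z, ‖θ z‖ ≤ C * Real.exp (m * (Real.pi / 2 * (H z z).re)) := by
  obtain ⟨hd, hθ⟩ := hsec
  -- the invariant norm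
  set g : V → ℂ := fun z => θ z * cexp (-(m * (Real.pi / 2 * H z z))) with hg
  have hcH : Continuous fun z => H z z := by
    have h1 : Continuous fun p : V × V => H p.1 p.2 := by
      have h2 : ∀ x y, H x y = ∑ i, (starRingEnd ℂ) ((Module.finBasis ℂ V).repr y i) *
          functional H ((Module.finBasis ℂ V) i) x := by
        intro x y
        conv_lhs => rw [← (Module.finBasis ℂ V).sum_repr y]
        rw [map_sum]
        refine Finset.sum_congr rfl fun i _ => ?_
        rw [H_smul_right, functional_apply]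
      simp only [h2]
      refine continuous_finsetSum _ fun i _ => ?_
      refine Continuous.mul ?_ ((functional H _).continuous.comp continuous_fst)
      have h3 : Continuous fun y => (Module.finBasis ℂ V).repr y i :=
        ((Module.finBasis ℂ V).coord i).continuous_of_finiteDimensional
      exact (Complex.continuous_conj.comp h3).comp continuous_snd
    exact h1.comp (continuous_id.prodMk continuous_id)
  have hgc : Continuous g := by
    rw [hg]
    refine hd.continuous.mul (Complex.continuous_exp.comp ?_)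
    exact (continuous_const.mul (continuous_const.mul hcH)).neg
  have hper : ∀ x ∈ translGroup Γ, ∀ z, ‖g (z + x)‖ = ‖g z‖ := by
    intro x hx z
    have h1 := hθ (tr x) hx z
    rw [tr_apply, add_comm x z] at h1
    change ‖θ (z + x) * _‖ = ‖θ z * _‖
    rw [h1, norm_mul, norm_mul, norm_mul, norm_pow, factor_tr, norm_mul, hL.norm_one _ hx,
      one_mul, Complex.norm_exp, Complex.norm_exp, Complex.norm_exp, ← Real.exp_nat_mul]
    have e1 : (-((m : ℂ) * (Real.pi / 2 * H (z + x) (z + x)))).re =
        -(m * (Real.pi / 2 * (H (z + x) (z + x)).re)) := by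
      simp
    have e2 : (-((m : ℂ) * (Real.pi / 2 * H z z))).re =
        -(m * (Real.pi / 2 * (H z z).re)) := by
      simp
    have e3 : (Real.pi * H z x + Real.pi / 2 * H x x).re =
        Real.pi * (H z x).re + Real.pi / 2 * (H x x).re := by
      simp
    have e4 : (H (z + x) (z + x)).re = (H z z).re + 2 * (H z x).re + (H x x).re := by
      simp only [map_add, LinearMap.add_apply, Complex.add_re]
      rw [H_re_symm hL.herm z x]
      ring
    rw [e1, e2, e3, e4, mul_right_comm, ← Real.exp_add, mul_comm]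
    congr 2
    ring
  obtain ⟨C, hC⟩ := isBounded_iff_forall_norm_le.mp
    (bounded_of_periodic hgc (translGroup Γ) hΓ.span hper)
  refine ⟨C, fun z => ?_⟩
  have h1 := hC _ ⟨z, rfl⟩
  have h2 : θ z = g z * cexp (m * (Real.pi / 2 * H z z)) := by
    change θ z = θ z * cexp (-(m * (Real.pi / 2 * H z z))) * _
    rw [mul_assoc, ← Complex.exp_add]
    simp
  have h3 : ‖cexp (m * (Real.pi / 2 * H z z))‖ =
      Real.exp (m * (Real.pi / 2 * (H z z).re)) := by
    rw [Complex.norm_exp]
    simp
  rw [h2, norm_mul, h3]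
  exact mul_le_mul_of_nonneg_right h1 (Real.exp_pos _).le

/-- Every section of every power is constant along the kernel of the Hermitian form. -/
theorem section_const (hΓ : IsTorusGroup Γ) (hL : IsOrbiBundle Γ H α) {m : ℕ}
    {θ : V → ℂ} (hsec : IsSection Γ H α m θ) {w : V} (hw : H w = 0) (z : V) :
    θ (z + w) = θ z := by
  have hHw : ∀ y, H y w = 0 := by
    intro y
    rw [hL.herm w y, hw]
    simp
  obtain ⟨C, hC⟩ := section_bound hΓ hL hsec
  set f : ℂ → ℂ := fun t => θ (z + t • w) with hf
  have hfd : Differentiable ℂ f := by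
    have : Differentiable ℂ fun t : ℂ => z + t • w := by fun_prop
    exact hsec.1.comp this
  have hHt : ∀ t : ℂ, H (z + t • w) (z + t • w) = H z z := by
    intro t
    simp only [map_add, LinearMap.add_apply, H_smul_left, H_smul_right, hHw, hw,
      LinearMap.zero_apply, mul_zero, add_zero]
  have hfb : Bornology.IsBounded (Set.range f) := by
    rw [isBounded_iff_forall_norm_le]
    refine ⟨C * Real.exp (m * (Real.pi / 2 * (H z z).re)), ?_⟩
    rintro _ ⟨t, rfl⟩
    have h1 := hC (z + t • w)
    rwa [hHt] at h1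
  have h1 := hfd.apply_eq_apply_of_bounded hfb 1 0
  simpa [hf] using h1

/-- A bundle some positive power of which has a nonzero section is nef. -/
theorem nef_of_section (hΓ : IsTorusGroup Γ) (hL : IsOrbiBundle Γ H α) {m : ℕ} (hm : 1 ≤ m)
    {θ : V → ℂ} (hsec : IsSection Γ H α m θ) (h0 : θ ≠ 0) : Nef H := by
  intro v
  by_contra hv
  push Not at hv
  apply h0
  funext z
  change θ z = 0
  obtain ⟨C, hC⟩ := section_bound hΓ hL hsec
  set a := (H z z).re with ha
  set b := ‖H z v‖ with hb
  set c := -(H v v).re with hc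
  have hcpos : 0 < c := by linarith
  have hmpos : (0 : ℝ) < m := by exact_mod_cast hm
  have hq : ∀ t : ℂ, (H (z + t • v) (z + t • v)).re ≤ a + 2 * b * ‖t‖ - c * ‖t‖ ^ 2 := by
    intro t
    have e1 : (H (z + t • v) (z + t • v)).re =
        a + 2 * ((starRingEnd ℂ) t * H z v).re + ‖t‖ ^ 2 * (H v v).re := by
      simp only [map_add, LinearMap.add_apply, H_smul_left, H_smul_right, Complex.add_re]
      have e2 : (t * H v z).re = ((starRingEnd ℂ) t * H z v).re := by
        rw [hL.herm z v, ← Complex.conj_re]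
        simp
      have e3 : (t * ((starRingEnd ℂ) t * H v v)).re = ‖t‖ ^ 2 * (H v v).re := by
        rw [← mul_assoc, Complex.mul_conj, Complex.re_ofReal_mul, Complex.normSq_eq_norm_sq]
      rw [e2]
      have e4 : ((starRingEnd ℂ) t * (t * H v v)).re = ‖t‖ ^ 2 * (H v v).re := by
        rw [← e3]; congr 1; ring
      rw [e4]
      ring
    have e5 : ((starRingEnd ℂ) t * H z v).re ≤ b * ‖t‖ := by
      refine (Complex.re_le_norm _).trans ?_
      rw [norm_mul, RCLike.norm_conj, mul_comm]
    rw [e1]
    nlinarith [e5]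
  have hCn : 0 ≤ C := by
    have h1 := (norm_nonneg _).trans (hC 0)
    have h2 := Real.exp_pos (m * (Real.pi / 2 * (H (0 : V) 0).re))
    by_contra hneg
    push Not at hneg
    nlinarith
  have hbd : ∀ t : ℂ, ‖θ (z + t • v)‖ ≤
      C * Real.exp (m * (Real.pi / 2 * (a + 2 * b * ‖t‖ - c * ‖t‖ ^ 2))) := by
    intro t
    refine (hC _).trans (mul_le_mul_of_nonneg_left ?_ hCn)
    apply Real.exp_le_exp.mpr
    apply mul_le_mul_of_nonneg_left _ hmpos.le
    apply mul_le_mul_of_nonneg_left (hq t)
    positivity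
  set f : ℂ → ℂ := fun t => θ (z + t • v) with hf
  have hfd : Differentiable ℂ f := by
    have : Differentiable ℂ fun t : ℂ => z + t • v := by fun_prop
    exact hsec.1.comp this
  have hfb : Bornology.IsBounded (Set.range f) := by
    rw [isBounded_iff_forall_norm_le]
    refine ⟨C * Real.exp (m * (Real.pi / 2 * (a + b ^ 2 / c))), ?_⟩
    rintro _ ⟨t, rfl⟩
    refine (hbd t).trans (mul_le_mul_of_nonneg_left ?_ hCn)
    apply Real.exp_le_exp.mpr
    apply mul_le_mul_of_nonneg_left _ hmpos.le
    apply mul_le_mul_of_nonneg_left _ (by positivity)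
    have h1 : 2 * b * ‖t‖ - c * ‖t‖ ^ 2 ≤ b ^ 2 / c := by
      rw [le_div_iff₀ hcpos]
      nlinarith [sq_nonneg (b - c * ‖t‖)]
    linarith
  have hconst : ∀ t : ℂ, ‖θ z‖ = ‖f t‖ := by
    intro t
    have h1 := hfd.apply_eq_apply_of_bounded hfb 0 t
    rw [← h1]
    simp [hf]
  have hlim : Filter.Tendsto (fun x : ℝ => C * Real.exp (m * (Real.pi / 2 *
      (a + 2 * b * x - c * x ^ 2)))) Filter.atTop (nhds 0) := by
    have h1 : Filter.Tendsto (fun x : ℝ => m * (Real.pi / 2 *
        (a + 2 * b * x - c * x ^ 2))) Filter.atTop Filter.atBot := by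
      apply Filter.Tendsto.const_mul_atBot hmpos
      apply Filter.Tendsto.const_mul_atBot (by positivity)
      have h2 : ∀ x : ℝ, a + 2 * b * x - c * x ^ 2 = a + x * (2 * b - c * x) := by
        intro x; ring
      simp only [h2]
      apply Filter.tendsto_atBot_add_const_left
      apply Filter.Tendsto.atTop_mul_atBot₀ Filter.tendsto_id
      have h3 : Filter.Tendsto (fun x : ℝ => c * x) Filter.atTop Filter.atTop :=
        Filter.tendsto_id.const_mul_atTop hcpos
      have h4 : Filter.Tendsto (fun x : ℝ => -(c * x)) Filter.atTop Filter.atBot :=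
        Filter.tendsto_neg_atTop_atBot.comp h3
      have h5 := Filter.tendsto_atBot_add_const_left Filter.atTop (2 * b) h4
      simpa [sub_eq_add_neg] using h5
    have h2 := Real.tendsto_exp_atBot.comp h1
    simpa using h2.const_mul C
  have hle : ‖θ z‖ ≤ 0 := by
    apply ge_of_tendsto hlim
    filter_upwards [Filter.eventually_ge_atTop (0 : ℝ)] with x hx
    rw [hconst (x : ℂ)]
    have h1 := hbd (x : ℂ)
    rwa [Complex.norm_real, Real.norm_of_nonneg hx] at h1
  exact norm_le_zero_iff.mp hle

end Pool.Agent.SYZ52
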