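import Pool.Agent.SYZ52.Norm

namespace Pool.Agent.SYZ52

/-- Minkowski: an integral matrix of prime order congruent to the identity modulo three is
the identity. -/
theorem minkowski {n : ℕ} (A : Matrix (Fin n) (Fin n) ℤ) {p : ℕ} (hp : p.Prime)
    (hA : A ^ p = 1) (h3 : ∀ i j, (3 : ℤ) ∣ (A - 1) i j) : A = 1 := by
  set X := A - 1 with hX
  have hAX : A = 1 + X := by rw [hX]; abel
  have hgeo : X * ∑ i ∈ Finset.range p, A ^ i = 0 := by
    rw [hX, mul_geom_sum, hA, sub_self]
  have hex : ∀ k : ℕ, (∀ i j, (3 : ℤ) ^ k ∣ X i j) → ∃ B : Matrix (Fin n) (Fin n) ℤ,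
      X = (3 : ℤ) ^ k • B := by
    intro k hk
    choose B hB using hk
    refine ⟨Matrix.of B, ?_⟩
    ext i j
    rw [hB i j]
    simp
  have hstep : ∀ k : ℕ, 1 ≤ k → (∀ i j, (3 : ℤ) ^ k ∣ X i j) →
      ∀ i j, (3 : ℤ) ^ (k + 1) ∣ X i j := by
    intro k hk hd i j
    obtain ⟨B, hB⟩ := hex k hd
    by_cases hp3 : p = 3
    · subst hp3
      have e1 : (3 : ℤ) • X = -((3 : ℤ) • (X * X) + X * X * X) := by
        have e2 : ∑ i ∈ Finset.range 3, A ^ i =
            (3 : ℤ) • (1 : Matrix (Fin n) (Fin n) ℤ) + (3 : ℤ) • X + X * X := by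
          rw [Finset.sum_range_succ, Finset.sum_range_succ, Finset.sum_range_succ,
            Finset.sum_range_zero, hAX]
          noncomm_ring
        rw [e2] at hgeo
        have e3 : X * ((3 : ℤ) • (1 : Matrix (Fin n) (Fin n) ℤ) + (3 : ℤ) • X + X * X) =
            (3 : ℤ) • X + ((3 : ℤ) • (X * X) + X * X * X) := by
          noncomm_ring
        rw [e3] at hgeo
        exact eq_neg_of_add_eq_zero_left hgeo
      have e4 : (3 : ℤ) * X i j =
          3 * (3 ^ (k + 1) * -((3 : ℤ) ^ (k - 1) * (B * B) i j +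
            3 ^ (2 * (k - 1)) * (B * B * B) i j)) := by
        have e5 := congrFun (congrFun e1 i) j
        rw [hB] at e5 ⊢
        simp only [Matrix.smul_mul, Matrix.mul_smul, Matrix.smul_apply, Matrix.neg_apply,
          Matrix.add_apply, smul_eq_mul] at e5 ⊢
        obtain ⟨l, rfl⟩ : ∃ l, k = l + 1 := ⟨k - 1, by omega⟩
        rw [e5]
        simp only [Nat.add_sub_cancel]
        ring
      exact ⟨_, mul_left_cancel₀ (by norm_num) e4⟩
    · have hpow : ∀ i : ℕ, ∃ c : Matrix (Fin n) (Fin n) ℤ, A ^ i = 1 + X * c := by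
        intro i
        induction i with
        | zero => exact ⟨0, by simp⟩
        | succ i ih =>
          obtain ⟨c, hc⟩ := ih
          refine ⟨1 + c * (1 + X), ?_⟩
          rw [pow_succ, hc]
          conv_lhs => rw [hAX]
          noncomm_ring
      choose c hc using hpow
      have e1 : (p : ℤ) • X = -(X * X * ∑ i ∈ Finset.range p, c i) := by
        have e2 : ∑ i ∈ Finset.range p, A ^ i = (p : ℤ) • 1 +
            X * ∑ i ∈ Finset.range p, c i := by
          simp only [hc]
          rw [Finset.sum_add_distrib, Finset.mul_sum]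
          simp
        rw [e2, mul_add, ← mul_assoc] at hgeo
        have e3 : X * (p : ℤ) • (1 : Matrix (Fin n) (Fin n) ℤ) = (p : ℤ) • X := by
          rw [mul_smul_comm, mul_one]
        rw [e3] at hgeo
        exact eq_neg_of_add_eq_zero_left hgeo
      have e4 : (p : ℤ) * X i j =
          3 ^ (k + 1) * -((3 : ℤ) ^ (k - 1) * (B * B * ∑ i ∈ Finset.range p, c i) i j) := by
        have e5 := congrFun (congrFun e1 i) j
        rw [hB] at e5 ⊢
        simp only [Matrix.smul_mul, Matrix.mul_smul, Matrix.smul_apply, Matrix.neg_apply,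
          smul_eq_mul] at e5 ⊢
        obtain ⟨l, rfl⟩ : ∃ l, k = l + 1 := ⟨k - 1, by omega⟩
        rw [e5]
        simp only [Nat.add_sub_cancel]
        ring
      have hcop : IsCoprime ((3 : ℤ) ^ (k + 1)) (p : ℤ) := by
        apply IsCoprime.pow_left
        rw [show (3 : ℤ) = ((3 : ℕ) : ℤ) by norm_num, Nat.isCoprime_iff_coprime]
        exact (Nat.coprime_primes Nat.prime_three hp).mpr (fun h => hp3 h.symm)
      exact hcop.dvd_of_dvd_mul_left ⟨_, e4⟩
  have hall : ∀ k : ℕ, 1 ≤ k → ∀ i j, (3 : ℤ) ^ k ∣ X i j := by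
    intro k hk
    induction k, hk using Nat.le_induction with
    | base => simpa using h3
    | succ k hk ih => exact hstep k hk ih
  have hX0 : X = 0 := by
    ext i j
    have h1 : |X i j| < 3 ^ ((X i j).natAbs + 1) := by
      rw [Int.abs_eq_natAbs]
      have h2 : (X i j).natAbs < 3 ^ ((X i j).natAbs + 1) :=
        (Nat.lt_pow_self (by norm_num)).trans (Nat.pow_lt_pow_right (by norm_num)
          (Nat.lt_succ_self _))
      exact_mod_cast h2
    exact Int.eq_zero_of_abs_lt_dvd (hall _ (by omega) i j) h1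
  rw [hAX, hX0, add_zero]

variable {V : Type*} [NormedAddCommGroup V] [NormedSpace ℂ V] [FiniteDimensional ℂ V]
variable {Γ : Subgroup (V ≃ᵃ[ℂ] V)}

theorem pointGroup_mem {q : V ≃ₗ[ℂ] V} (hq : q ∈ pointGroup Γ) {x : V}
    (hx : x ∈ translGroup Γ) : q x ∈ translGroup Γ := by
  obtain ⟨γ, hγ, h1⟩ := Subgroup.mem_map.mp hq
  have h2 : γ.linear = q := h1
  have h3 : tr (q x) = γ * tr x * γ⁻¹ := by
    rw [eq_mul_inv_iff_mul_eq]
    ext z
    rw [mul_apply, mul_apply, tr_apply, tr_apply, ← h2, linear_apply]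
    have h4 := linear_apply γ (x + z)
    rw [map_add, linear_apply, linear_apply] at h4
    have h5 : γ (x + z) = (γ x - γ 0 + (γ z - γ 0)) + γ 0 := by rw [h4]; abel
    rw [h5]
    abel
  change tr (q x) ∈ Γ
  rw [h3]
  exact Γ.mul_mem (Γ.mul_mem hγ hx) (Γ.inv_mem hγ)

/-- The point group acts on the lattice. -/
def rho (Γ : Subgroup (V ≃ᵃ[ℂ] V)) :
    pointGroup Γ →* Module.End ℤ (AddSubgroup.toIntSubmodule (translGroup Γ)) where
  toFun q := (((q : V ≃ₗ[ℂ] V) : V →ₗ[ℂ] V).restrictScalars ℤ).restrict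
    (fun _ hx => pointGroup_mem q.2 hx)
  map_one' := by
    ext x
    rfl
  map_mul' a b := by
    ext x
    rfl

theorem rho_apply (q : pointGroup Γ) (x : AddSubgroup.toIntSubmodule (translGroup Γ)) :
    ((rho Γ q x : AddSubgroup.toIntSubmodule (translGroup Γ)) : V) =
      (q : V ≃ₗ[ℂ] V) (x : V) := rfl

theorem card_dvd (hΓ : IsTorusGroup Γ) : Nat.card (pointGroup Γ) ∣
    ∏ i : Fin (2 * Module.finrank ℂ V), (3 ^ (2 * Module.finrank ℂ V) - 3 ^ (i : ℕ)) := by
  classical
  have := hΓ.finite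
  set L := AddSubgroup.toIntSubmodule (translGroup Γ) with hL
  have hdisc : DiscreteTopology L := hΓ.discrete
  have hspan : Submodule.span ℝ (L : Set V) = ⊤ := hΓ.span
  have : ProperSpace V := FiniteDimensional.proper ℂ V
  have : FiniteDimensional ℝ V := FiniteDimensional.complexToReal V
  have hlat : IsZLattice ℝ L := ⟨hspan⟩
  have hfree : Module.Free ℤ L := ZLattice.module_free ℝ L
  have hfin : Module.Finite ℤ L := ZLattice.module_finite ℝ L
  have hrank : Module.finrank ℤ L = 2 * Module.finrank ℂ V := by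
    rw [ZLattice.rank ℝ L, finrank_real_of_complex]
  let b : Module.Basis (Fin (2 * Module.finrank ℂ V)) ℤ L :=
    (Module.finBasis ℤ L).reindex (finCongr hrank)
  set n := 2 * Module.finrank ℂ V with hn
  let M : pointGroup Γ →* Matrix (Fin n) (Fin n) ℤ :=
    ((LinearMap.toMatrixAlgEquiv b : (L →ₗ[ℤ] L) ≃ₐ[ℤ] _) :
      (L →ₗ[ℤ] L) →* Matrix (Fin n) (Fin n) ℤ).comp (rho Γ)
  let R : Matrix (Fin n) (Fin n) ℤ →* Matrix (Fin n) (Fin n) (ZMod 3) :=
    ((Int.castRingHom (ZMod 3)).mapMatrix : Matrix (Fin n) (Fin n) ℤ →+* _)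
  let φ : pointGroup Γ →* GL (Fin n) (ZMod 3) := MonoidHom.toHomUnits (R.comp M)
  have hinj : Function.Injective φ := by
    rw [injective_iff_map_eq_one]
    intro q hq
    by_contra hq1
    have ho : orderOf q ≠ 0 := (orderOf_pos q).ne'
    obtain ⟨p, hp, hpd⟩ := Nat.exists_prime_and_dvd (n := orderOf q)
      (fun h => hq1 (orderOf_eq_one_iff.mp h))
    set x := q ^ (orderOf q / p) with hx
    have hxo : orderOf x = p := orderOf_pow_orderOf_div ho hpd
    have hx1 : x ≠ 1 := by
      intro h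
      rw [h, orderOf_one] at hxo
      exact hp.one_lt.ne hxo
    have hxp : x ^ p = 1 := by rw [← hxo]; exact pow_orderOf_eq_one x
    have hφx : φ x = 1 := by rw [hx, map_pow, hq, one_pow]
    have hMp : M x ^ p = 1 := by rw [← map_pow, hxp, map_one]
    have hRM : R (M x) = 1 := congrArg Units.val hφx
    have h3 : ∀ i j, (3 : ℤ) ∣ (M x - 1) i j := by
      intro i j
      have h4 : R (M x - 1) = 0 := by
        change (Int.castRingHom (ZMod 3)).mapMatrix (M x - 1) = 0
        rw [map_sub, map_one]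
        exact sub_eq_zero.mpr hRM
      have h5 := congrFun (congrFun h4 i) j
      change (((M x - 1) i j : ℤ) : ZMod 3) = 0 at h5
      exact (ZMod.intCast_zmod_eq_zero_iff_dvd _ 3).mp h5
    have hM1 : M x = 1 := minkowski (M x) hp hMp h3
    have hρ : rho Γ x = 1 := by
      have h6 : (LinearMap.toMatrixAlgEquiv b) (rho Γ x) =
          (LinearMap.toMatrixAlgEquiv b) 1 := by
        rw [map_one]
        exact hM1
      exact (LinearMap.toMatrixAlgEquiv b).injective h6
    apply hx1
    have h7 : ∀ v : V, (x : V ≃ₗ[ℂ] V) v = v := by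
      have h8 : Submodule.span ℝ (L : Set V) ≤ LinearMap.ker
          (((((x : V ≃ₗ[ℂ] V) : V →ₗ[ℂ] V) - LinearMap.id).restrictScalars ℝ)) := by
        rw [Submodule.span_le]
        intro y hy
        have h9 := congrArg Subtype.val (LinearMap.congr_fun hρ ⟨y, hy⟩)
        have h10 : (x : V ≃ₗ[ℂ] V) y = y := h9
        change (x : V ≃ₗ[ℂ] V) y - y = 0
        rw [h10, sub_self]
      intro v
      have h11 := h8 (hspan ▸ Submodule.mem_top (x := v))
      exact sub_eq_zero.mp h11
    apply Subtype.ext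
    ext v
    exact h7 v
  have hcard := Subgroup.card_dvd_of_injective φ hinj
  rw [Matrix.card_GL_field, ZMod.card] at hcard
  exact hcard

end Pool.Agent.SYZ52
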