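import Pool.Agent.SYZ52.Forward
import Pool.Agent.SYZ52.Minkowski
import Pool.Agent.SYZ52.Bound

namespace Pool.Agent.SYZ52

theorem torus_quotients (V : Type*) [NormedAddCommGroup V] [NormedSpace ℂ V]
    [FiniteDimensional ℂ V] (Γ : Subgroup (V ≃ᵃ[ℂ] V)) (hΓ : IsTorusGroup Γ) :
    List.TFAE [
      NoFixedVector Γ,
      ∀ (H : V →ₗ[ℂ] V →ₗ⋆[ℂ] ℂ) (α : (V ≃ᵃ[ℂ] V) → ℂ), IsLineBundle Γ H α → Nef H →
        ∃ m, 1 ≤ m ∧ GloballyGenerated Γ H α m,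
      ∀ (H : V →ₗ[ℂ] V →ₗ⋆[ℂ] ℂ) (α : (V ≃ᵃ[ℂ] V) → ℂ), IsOrbiBundle Γ H α →
        (Nef H ∨ ∃ m, 1 ≤ m ∧ ∃ θ, IsSection Γ H α m θ ∧ θ ≠ 0) →
        GloballyGenerated Γ H α (Nat.card (pointGroup Γ)),
      ∀ (H : V →ₗ[ℂ] V →ₗ⋆[ℂ] ℂ) (α : (V ≃ᵃ[ℂ] V) → ℂ), IsOrbiBundle Γ H α →
        (Nef H ∨ ∃ m, 1 ≤ m ∧ ∃ θ, IsSection Γ H α m θ ∧ θ ≠ 0) →
        GloballyGenerated Γ H α (∏ i : Fin (2 * Module.finrank ℂ V),
          (3 ^ (2 * Module.finrank ℂ V) - 3 ^ (i : ℕ)))] := by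
  tfae_have 1 → 3 := by
    intro hfix H α hL hor
    apply globallyGenerated hΓ hfix hL
    rcases hor with h | ⟨m, hm, θ, hθ, h0⟩
    · exact h
    · exact nef_of_section hΓ hL hm hθ h0
  tfae_have 3 → 4 := by
    intro h H α hL hor
    exact (h H α hL hor).of_dvd (card_dvd hΓ)
  tfae_have 4 → 2 := by
    intro h H α hL hn
    refine ⟨_, ?_, h H α hL.toIsOrbiBundle (Or.inl hn)⟩
    apply Nat.one_le_iff_ne_zero.mpr
    rw [Finset.prod_ne_zero_iff]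
    intro i _
    have : 3 ^ (i : ℕ) < 3 ^ (2 * Module.finrank ℂ V) :=
      Nat.pow_lt_pow_right (by norm_num) i.2
    omega
  tfae_have 2 → 1 := by
    intro h
    by_contra hfix
    obtain ⟨α, hα, hnot⟩ := exists_not_semiample hΓ hfix
    obtain ⟨m, hm, hg⟩ := h 0 α hα (fun x => by simp)
    exact hnot m hm hg
  tfae_finish

end Pool.Agent.SYZ52
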