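import Mathlib

/-!
# Quotients of complex tori by finite groups, and their line bundles

`V` is a finite-dimensional complex vector space, `Γ` a group of affine automorphisms of `V`
whose translations form a lattice and whose point group is finite.  Then `V / Γ` is the
quotient of the complex torus `V / transl Γ` by the finite group `pointGroup Γ`, and every
quotient of a complex torus by a finite group of automorphisms is of this form.
-/

namespace Pool.Agent.SYZ52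

open Complex

variable {V : Type*} [NormedAddCommGroup V] [NormedSpace ℂ V]

/-- The vectors `v` such that the translation `z ↦ v + z` belongs to `Γ`. -/
def transl (Γ : Subgroup (V ≃ᵃ[ℂ] V)) : Set V :=
  {v | AffineEquiv.constVAdd ℂ V v ∈ Γ}

/-- The point group: the linear parts of the elements of `Γ`. -/
def pointGroup (Γ : Subgroup (V ≃ᵃ[ℂ] V)) : Subgroup (V ≃ₗ[ℂ] V) :=
  Γ.map AffineEquiv.linearHom

/-- `V / Γ` is the quotient of a complex torus by a finite group. -/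
structure IsTorusGroup (Γ : Subgroup (V ≃ᵃ[ℂ] V)) : Prop where
  /-- the translations form a discrete set -/
  discrete : DiscreteTopology (transl Γ)
  /-- the translations span `V` over the reals -/
  span : Submodule.span ℝ (transl Γ) = ⊤
  /-- the point group is finite -/
  finite : Finite (pointGroup Γ)

/-- No nonzero vector of `V` is fixed by all linear parts of elements of `Γ`
(the linear part of `γ` is `v ↦ γ v - γ 0`). -/
def NoFixedVector (Γ : Subgroup (V ≃ᵃ[ℂ] V)) : Prop :=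
  ∀ v : V, (∀ γ ∈ Γ, γ v - γ 0 = v) → v = 0

/-- The canonical factor with Hermitian form `H` and multiplier `α`:
for `γ z = A z + t` it is `α(γ) exp (π H(Az, t) + (π/2) H(t, t))`. -/
noncomputable def factor (H : V →ₗ[ℂ] V →ₗ⋆[ℂ] ℂ) (α : (V ≃ᵃ[ℂ] V) → ℂ)
    (γ : V ≃ᵃ[ℂ] V) (z : V) : ℂ :=
  α γ * cexp (Real.pi * H (γ z - γ 0) (γ 0) + Real.pi / 2 * H (γ 0) (γ 0))

/-- `(H, α)` defines an orbifold line bundle on `V / Γ`: `H` is Hermitian and invariant under
the linear parts, `α` has absolute value one, and `factor H α` is a factor of automorphy. -/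
structure IsOrbiBundle (Γ : Subgroup (V ≃ᵃ[ℂ] V)) (H : V →ₗ[ℂ] V →ₗ⋆[ℂ] ℂ)
    (α : (V ≃ᵃ[ℂ] V) → ℂ) : Prop where
  herm : ∀ x y, H y x = (starRingEnd ℂ) (H x y)
  inv : ∀ γ ∈ Γ, ∀ x y, H (γ x - γ 0) (γ y - γ 0) = H x y
  norm_one : ∀ γ ∈ Γ, ‖α γ‖ = 1
  cocycle : ∀ γ ∈ Γ, ∀ δ ∈ Γ, ∀ z,
    factor H α (γ * δ) z = factor H α γ (δ z) * factor H α δ z

/-- A line bundle on `V / Γ`: an orbifold line bundle for which every element of `Γ` fixing a
point `z` acts trivially on the fibre at `z`. -/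
structure IsLineBundle (Γ : Subgroup (V ≃ᵃ[ℂ] V)) (H : V →ₗ[ℂ] V →ₗ⋆[ℂ] ℂ)
    (α : (V ≃ᵃ[ℂ] V) → ℂ) : Prop extends IsOrbiBundle Γ H α where
  stab : ∀ γ ∈ Γ, ∀ z, γ z = z → factor H α γ z = 1

/-- Nefness on the quotient of a torus: the Hermitian form is semipositive. -/
def Nef (H : V →ₗ[ℂ] V →ₗ⋆[ℂ] ℂ) : Prop := ∀ x, 0 ≤ (H x x).re

/-- `V / Γ` is a primitive symplectic variety: no nonzero vector is fixed by the linear parts
(`H¹(𝒪) = 0`), and there is a nondegenerate alternating form `σ`, invariant under the linear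
parts of `Γ`, such that every invariant alternating form is a multiple of `σ`. -/
structure IsPrimitiveSymplectic (Γ : Subgroup (V ≃ᵃ[ℂ] V)) (σ : V →ₗ[ℂ] V →ₗ[ℂ] ℂ) :
    Prop where
  nofix : NoFixedVector Γ
  alt : ∀ x, σ x x = 0
  nondeg : ∀ x, (∀ y, σ x y = 0) → x = 0
  inv : ∀ γ ∈ Γ, ∀ x y, σ (γ x - γ 0) (γ y - γ 0) = σ x y
  unique : ∀ τ : V →ₗ[ℂ] V →ₗ[ℂ] ℂ, (∀ x, τ x x = 0) →
    (∀ γ ∈ Γ, ∀ x y, τ (γ x - γ 0) (γ y - γ 0) = τ x y) → ∃ c : ℂ, τ = c • σ

/-- `θ` is a global section of the `m`-th power of the bundle: a holomorphic function on `V`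
with the right transformation law under `Γ`. -/
def IsSection (Γ : Subgroup (V ≃ᵃ[ℂ] V)) (H : V →ₗ[ℂ] V →ₗ⋆[ℂ] ℂ)
    (α : (V ≃ᵃ[ℂ] V) → ℂ) (m : ℕ) (θ : V → ℂ) : Prop :=
  Differentiable ℂ θ ∧ ∀ γ ∈ Γ, ∀ z, θ (γ z) = factor H α γ z ^ m * θ z

/-- The `m`-th power of the bundle is globally generated: for each point there is a global
section not vanishing there. -/
def GloballyGenerated (Γ : Subgroup (V ≃ᵃ[ℂ] V)) (H : V →ₗ[ℂ] V →ₗ⋆[ℂ] ℂ)
    (α : (V ≃ᵃ[ℂ] V) → ℂ) (m : ℕ) : Prop :=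
  ∀ z₀ : V, ∃ θ : V → ℂ, IsSection Γ H α m θ ∧ θ z₀ ≠ 0

end Pool.Agent.SYZ52
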