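import Pool.Agent.SYZ52.Theta

namespace Pool.Agent.SYZ52

open Complex

variable {V : Type*} [NormedAddCommGroup V] [NormedSpace ℂ V]
variable {H : V →ₗ[ℂ] V →ₗ⋆[ℂ] ℂ}

theorem H_decomp (x y : V) : H x y = ((H x y).re : ℂ) + ((H x y).im : ℂ) * I :=
  (Complex.re_add_im _).symm

theorem term_shift (h : Herm H) {c₀ c₁ c₂ : ℂ} (hc₀ : ‖c₀‖ = 1) {w w₀ x : V}
    (hx : ∀ y, H (x - w₀) y = 0) {k : ℤ} (hk : (H w w₀).im = k)
    (hmul : c₂ = c₁ * c₀ * cexp (-(Real.pi * I * ((H w w₀).im : ℂ)))) (z : V) :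
    term H w c₁ (z + x) =
      (starRingEnd ℂ) c₀ * cexp (Real.pi * H z x + Real.pi / 2 * H x x) *
        term H (w + w₀) c₂ z := by
  have e1 : ∀ y, H x y = H w₀ y := by
    intro y
    have := hx y
    rw [map_sub, LinearMap.sub_apply] at this
    exact sub_eq_zero.mp this
  have e2 : ∀ y, H y x = H y w₀ := by
    intro y
    rw [h x y, e1, ← h w₀ y]
  have e3 : H x x = H w₀ w₀ := by rw [e1, e2]
  have hcc : (starRingEnd ℂ) c₀ * c₀ = 1 := by
    rw [mul_comm, Complex.mul_conj, Complex.normSq_eq_norm_sq, hc₀]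
    simp
  have hre : H w₀ w = ((H w w₀).re : ℂ) - ((H w w₀).im : ℂ) * I := by
    rw [h w w₀]
    apply Complex.ext <;> simp
  have e4 : cexp (-(Real.pi * H (z + x) w) - Real.pi / 2 * H w w) =
      cexp (-(Real.pi * I * ((H w w₀).im : ℂ)) +
        ((Real.pi * H z x + Real.pi / 2 * H x x) +
          (-(Real.pi * H z (w + w₀)) - Real.pi / 2 * H (w + w₀) (w + w₀)))) := by
    rw [Complex.exp_eq_exp_iff_exists_int]
    refine ⟨k, ?_⟩
    rw [H_self_add h, e2 z, e3]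
    simp only [map_add, LinearMap.add_apply]
    rw [e1 w, hre, hk]
    push_cast
    ring
  rw [term, term, hmul, e4, Complex.exp_add, Complex.exp_add]
  linear_combination (-(c₁ * cexp (-(Real.pi * I * ((H w w₀).im : ℂ))) *
    cexp (Real.pi * H z x + Real.pi / 2 * H x x) *
    cexp (-(Real.pi * H z (w + w₀)) - Real.pi / 2 * H (w + w₀) (w + w₀)))) * hcc

theorem theta_add (h : Herm H) {r : ℕ} {v : Fin r → V} {c : (Fin r → ℤ) → ℂ}
    (hc : ∀ n, ‖c n‖ = 1)
    (hcm : ∀ n m, c (n + m) = c n * c m *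
      cexp (-(Real.pi * I * ((H (comb v n) (comb v m)).im : ℂ))))
    (hE : ∀ n m : Fin r → ℤ, ∃ k : ℤ, (H (comb v n) (comb v m)).im = k)
    {x : V} {n₀ : Fin r → ℤ} (hx : ∀ y, H (x - comb v n₀) y = 0) (z : V) :
    theta H v c (z + x) = (starRingEnd ℂ) (c n₀) *
      cexp (Real.pi * H z x + Real.pi / 2 * H x x) * theta H v c z := by
  have h1 : ∀ n, term H (comb v n) (c n) (z + x) =
      ((starRingEnd ℂ) (c n₀) * cexp (Real.pi * H z x + Real.pi / 2 * H x x)) *
        term H (comb v (n + n₀)) (c (n + n₀)) z := by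
    intro n
    obtain ⟨k, hk⟩ := hE n n₀
    rw [comb_add]
    exact term_shift h (hc n₀) hx hk (hcm n n₀) z
  rw [theta, theta]
  simp only [h1]
  rw [tsum_mul_left]
  congr 1
  exact (Equiv.addRight n₀).tsum_eq fun n => term H (comb v n) (c n) z

end Pool.Agent.SYZ52
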