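import Pool.Agent.SYZ52.NonVan

namespace Pool.Agent.SYZ52

open Complex Finset

/-- The quadratic refinement identity. -/
theorem quad_identity {r : ℕ} (k : Fin r → Fin r → ℤ) (hk : ∀ i j, k j i = -k i j)
    (n m : Fin r → ℤ) :
    (∑ i, ∑ j, if i < j then (n + m) i * (n + m) j * k i j else 0) +
      ∑ i, ∑ j, n i * m j * k i j =
    (∑ i, ∑ j, if i < j then n i * n j * k i j else 0) +
      (∑ i, ∑ j, if i < j then m i * m j * k i j else 0) +
      2 * ∑ i, ∑ j, if i < j then n i * m j * k i j else 0 := by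
  have hA : (∑ i, ∑ j, if i < j then m i * n j * k i j else 0) =
      ∑ i, ∑ j, if j < i then m j * n i * k j i else 0 := by
    rw [Finset.sum_comm]
  have hB : (∑ i, ∑ j, if i < j then (n + m) i * (n + m) j * k i j else 0) =
      (∑ i, ∑ j, if i < j then n i * n j * k i j else 0) +
      (∑ i, ∑ j, if i < j then m i * m j * k i j else 0) +
      (∑ i, ∑ j, if i < j then n i * m j * k i j else 0) +
      (∑ i, ∑ j, if i < j then m i * n j * k i j else 0) := by
    simp only [← Finset.sum_add_distrib]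
    refine Finset.sum_congr rfl fun i _ => Finset.sum_congr rfl fun j _ => ?_
    split_ifs
    · simp only [Pi.add_apply]; ring
    · ring
  have hC : (∑ i, ∑ j, n i * m j * k i j) +
      (∑ i, ∑ j, if j < i then m j * n i * k j i else 0) =
      ∑ i, ∑ j, if i < j then n i * m j * k i j else 0 := by
    simp only [← Finset.sum_add_distrib]
    refine Finset.sum_congr rfl fun i _ => Finset.sum_congr rfl fun j _ => ?_
    have hkk : k i i = 0 := by have := hk i i; omega
    rcases lt_trichotomy i j with hij | hij | hij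
    · rw [if_neg (not_lt.mpr hij.le), if_pos hij]; ring
    · subst hij
      simp [hkk]
    · rw [if_pos hij, if_neg (not_lt.mpr hij.le), hk i j]; ring
  rw [hB, hA]
  linear_combination hC

variable {V : Type*} [NormedAddCommGroup V] [NormedSpace ℂ V]
variable {H : V →ₗ[ℂ] V →ₗ⋆[ℂ] ℂ}

theorem im_comb {r : ℕ} {v : Fin r → V} (k : Fin r → Fin r → ℤ)
    (hk : ∀ i j, (H (v i) (v j)).im = k i j) (n m : Fin r → ℤ) :
    (H (comb v n) (comb v m)).im = ((∑ i, ∑ j, n i * m j * k i j : ℤ) : ℝ) := by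
  have h1 : ∀ (x y : V) (a : ℤ), H x (a • y) = (a : ℂ) * H x y := by
    intro x y a
    rw [map_zsmul]; simp
  have h2 : H (comb v n) (comb v m) = ∑ i, (n i : ℂ) * H (v i) (comb v m) := by
    rw [comb, map_sum, LinearMap.sum_apply]
    refine Finset.sum_congr rfl fun i _ => ?_
    rw [map_zsmul, LinearMap.smul_apply, zsmul_eq_mul]
  have h3 : ∀ x, H x (comb v m) = ∑ j, (m j : ℂ) * H x (v j) := by
    intro x
    rw [comb, map_sum]
    refine Finset.sum_congr rfl fun j _ => ?_
    rw [h1]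
  rw [h2, Complex.im_sum]
  push_cast
  refine Finset.sum_congr rfl fun i _ => ?_
  rw [h3, Finset.mul_sum, Complex.im_sum]
  refine Finset.sum_congr rfl fun j _ => ?_
  rw [← mul_assoc, ← hk]
  have : ((n i : ℂ) * (m j : ℂ)) = (((n i : ℝ) * (m j : ℝ) : ℝ) : ℂ) := by push_cast; rfl
  rw [this, Complex.im_ofReal_mul]

/-- Coefficients of a theta series not vanishing at the origin. -/
theorem exists_coef (h : Herm H) {r : ℕ} {v : Fin r → V}
    (hk : ∀ i j, ∃ k : ℤ, (H (v i) (v j)).im = k)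
    (hs : ∀ a : ℝ, 0 < a →
      Summable fun n : Fin r → ℤ => Real.exp (-a * (H (comb v n) (comb v n)).re)) :
    ∃ c : (Fin r → ℤ) → ℂ, (∀ n, ‖c n‖ = 1) ∧
      (∀ n m, c (n + m) = c n * c m *
        cexp (-(Real.pi * I * ((H (comb v n) (comb v m)).im : ℂ)))) ∧
      (∀ n m : Fin r → ℤ, ∃ k : ℤ, (H (comb v n) (comb v m)).im = k) ∧
      theta H v c 0 ≠ 0 := by
  classical
  choose k hk using hk
  have hka : ∀ i j, k j i = -k i j := by
    intro i j
    have := H_im_symm h (v i) (v j)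
    rw [hk, hk] at this
    exact_mod_cast this
  set q : (Fin r → ℤ) → ℤ := fun n => ∑ i, ∑ j, if i < j then n i * n j * k i j else 0
    with hq
  set c₀ : (Fin r → ℤ) → ℂ := fun n => cexp (Real.pi * I * (q n : ℂ)) with hc₀
  have hc₀n : ∀ n, ‖c₀ n‖ = 1 := by
    intro n
    rw [hc₀]
    change ‖cexp (Real.pi * I * (q n : ℂ))‖ = 1
    rw [show (Real.pi * I * (q n : ℂ) : ℂ) = ((Real.pi * q n : ℝ) : ℂ) * I by
      push_cast; ring]
    exact Complex.norm_exp_ofReal_mul_I _
  have hc₀m : ∀ n m, c₀ (n + m) = c₀ n * c₀ m *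
        cexp (-(Real.pi * I * ((H (comb v n) (comb v m)).im : ℂ))) := by
    intro n m
    rw [im_comb k hk, hc₀]
    change cexp (Real.pi * I * (q (n + m) : ℂ)) =
      cexp (Real.pi * I * (q n : ℂ)) * cexp (Real.pi * I * (q m : ℂ)) * _
    rw [← Complex.exp_add, ← Complex.exp_add, Complex.exp_eq_exp_iff_exists_int]
    refine ⟨∑ i, ∑ j, if i < j then n i * m j * k i j else 0, ?_⟩
    have h1 := quad_identity k hka n m
    have h2 : ((q (n + m) : ℤ) : ℂ) = ((q n : ℤ) : ℂ) + ((q m : ℤ) : ℂ) +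
        2 * (((∑ i, ∑ j, if i < j then n i * m j * k i j else 0 : ℤ)) : ℂ) -
        ((∑ i, ∑ j, n i * m j * k i j : ℤ) : ℂ) := by
      rw [hq]
      have := congrArg (fun z : ℤ => (z : ℂ)) h1
      simp only [Int.cast_add, Int.cast_mul, Int.cast_ofNat] at this
      linear_combination this
    rw [h2]
    push_cast
    ring
  have hq0 : q 0 = 0 := by simp [hq]
  have hcomb0 : comb v (0 : Fin r → ℤ) = 0 := by simp [comb]
  set a : (Fin r → ℤ) → ℂ := fun n =>
    c₀ n * cexp (-(Real.pi / 2 * H (comb v n) (comb v n))) with ha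
  have hterm : ∀ (c : ℂ) (w : V), term H w c 0 = c * cexp (-(Real.pi / 2 * H w w)) := by
    intro c w
    rw [term]
    simp
  have hnorm : ∀ n, ‖a n‖ = Real.exp (-(Real.pi / 2) * (H (comb v n) (comb v n)).re) := by
    intro n
    rw [ha]
    change ‖c₀ n * cexp (-(Real.pi / 2 * H (comb v n) (comb v n)))‖ = _
    rw [← hterm, norm_term _ (hc₀n n)]
    simp
  have hasum : Summable fun n => ‖a n‖ := by
    simp only [hnorm]
    exact hs (Real.pi / 2) (by positivity)
  have ha0 : a 0 ≠ 0 := by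
    rw [ha]
    change c₀ 0 * cexp _ ≠ 0
    exact mul_ne_zero (Complex.exp_ne_zero _) (Complex.exp_ne_zero _)
  obtain ⟨t, ht⟩ := exists_ne_zero hasum ha0
  set χ : (Fin r → ℤ) → ℂ := fun n => cexp (2 * Real.pi * I * ∑ j, ((t j : ℂ) * n j))
    with hχ
  have hχn : ∀ n, ‖χ n‖ = 1 := by
    intro n
    rw [hχ]
    change ‖cexp (2 * Real.pi * I * ∑ j, ((t j : ℂ) * n j))‖ = 1
    rw [show (2 * Real.pi * I * ∑ j, ((t j : ℂ) * n j) : ℂ) =
      ((2 * Real.pi * ∑ j, (t j * n j) : ℝ) : ℂ) * I by push_cast; ring]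
    exact Complex.norm_exp_ofReal_mul_I _
  have hχm : ∀ n m, χ (n + m) = χ n * χ m := by
    intro n m
    rw [hχ]
    change cexp _ = cexp _ * cexp _
    rw [← Complex.exp_add]
    congr 1
    rw [← mul_add, ← Finset.sum_add_distrib]
    congr 1
    refine Finset.sum_congr rfl fun j _ => ?_
    simp only [Pi.add_apply]
    push_cast
    ring
  refine ⟨fun n => c₀ n * χ n, fun n => ?_, fun n m => ?_, fun n m => ?_, ?_⟩
  · rw [norm_mul, hc₀n, hχn, mul_one]
  · change c₀ (n + m) * χ (n + m) = _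
    rw [hc₀m, hχm]
    ring
  · exact ⟨_, im_comb k hk n m⟩
  · rw [theta]
    simp only [hterm]
    convert ht using 3 with n
    rw [ha]
    change c₀ n * χ n * _ = c₀ n * _ * _
    rw [hχ]
    ring

end Pool.Agent.SYZ52
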