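import Pool.Agent.SYZ52.Norm

namespace Pool.Agent.SYZ52

open Complex

variable {V : Type*} [NormedAddCommGroup V] [NormedSpace ℂ V] [FiniteDimensional ℂ V]
variable {Γ : Subgroup (V ≃ᵃ[ℂ] V)}

theorem bounded_of_periodic {f : V → ℂ} (hf : Continuous f) (L : AddSubgroup V)
    (hspan : Submodule.span ℝ (L : Set V) = ⊤) (hper : ∀ x ∈ L, ∀ z, ‖f (z + x)‖ = ‖f z‖) :
    Bornology.IsBounded (Set.range f) := by
  classical
  let b := Module.Basis.ofSpan (K := ℝ) (V := V) (s := (L : Set V)) hspan.ge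
  have hb : ∀ i, b i ∈ L := fun i =>
    Module.Basis.ofSpan_subset (K := ℝ) hspan.ge ⟨i, rfl⟩
  have : Fintype ((linearIndepOn_empty ℝ (id : V → V)).extend
    (Set.empty_subset (L : Set V))) := FiniteDimensional.fintypeBasisIndex b
  have hbd := ZSpan.fundamentalDomain_isBounded b
  obtain ⟨R, hR⟩ := hbd.subset_closedBall 0
  have : ProperSpace V := FiniteDimensional.proper ℂ V
  have hc : IsCompact (Metric.closedBall (0 : V) R) := isCompact_closedBall 0 R
  obtain ⟨C, hC⟩ := hc.exists_bound_of_continuousOn hf.continuousOn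
  rw [isBounded_iff_forall_norm_le]
  refine ⟨C, ?_⟩
  rintro _ ⟨z, rfl⟩
  have hfl : ((ZSpan.floor b z : Submodule.span ℤ (Set.range b)) : V) ∈ L := by
    have h1 : Submodule.span ℤ (Set.range b) ≤ AddSubgroup.toIntSubmodule L := by
      rw [Submodule.span_le]
      rintro _ ⟨i, rfl⟩
      exact hb i
    exact h1 (ZSpan.floor b z).2
  have h2 := hper _ hfl (ZSpan.fract b z)
  have h3 : ZSpan.fract b z + (ZSpan.floor b z : V) = z := by
    rw [ZSpan.fract_apply]; abel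
  rw [h3] at h2
  rw [h2]
  exact hC _ (hR (ZSpan.fract_mem_fundamentalDomain b z))

/-- The average over the point group. -/
noncomputable def avg (Γ : Subgroup (V ≃ᵃ[ℂ] V)) [Fintype (pointGroup Γ)] : V →ₗ[ℂ] V :=
  (Fintype.card (pointGroup Γ) : ℂ)⁻¹ •
    ∑ q : pointGroup Γ, ((q : V ≃ₗ[ℂ] V) : V →ₗ[ℂ] V)

theorem avg_apply [Fintype (pointGroup Γ)] (x : V) :
    avg Γ x = (Fintype.card (pointGroup Γ) : ℂ)⁻¹ •
      ∑ q : pointGroup Γ, (q : V ≃ₗ[ℂ] V) x := by
  rw [avg, LinearMap.smul_apply, LinearMap.sum_apply]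
  rfl

theorem avg_lin [Fintype (pointGroup Γ)] {γ : V ≃ᵃ[ℂ] V} (hγ : γ ∈ Γ) (v : V) :
    avg Γ (γ v - γ 0) = avg Γ v := by
  rw [avg_apply, avg_apply]
  congr 1
  have hd' : γ.linear ∈ pointGroup Γ := ⟨γ, hγ, rfl⟩
  rw [← linear_apply]
  exact Equiv.sum_comp (Equiv.mulRight (⟨γ.linear, hd'⟩ : pointGroup Γ))
    fun q : pointGroup Γ => (q : V ≃ₗ[ℂ] V) v

theorem avg_map [Fintype (pointGroup Γ)] {γ : V ≃ᵃ[ℂ] V} (hγ : γ ∈ Γ) (v : V) :
    avg Γ (γ v) = avg Γ v + avg Γ (γ 0) := by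
  rw [← avg_lin hγ v, map_sub]
  abel

theorem avg_fixed [Fintype (pointGroup Γ)] {v : V} (hv : ∀ γ ∈ Γ, γ v - γ 0 = v) :
    avg Γ v = v := by
  rw [avg_apply]
  have : ∀ q : pointGroup Γ, (q : V ≃ₗ[ℂ] V) v = v := by
    rintro ⟨q, hq⟩
    obtain ⟨γ, hγ, h1⟩ := Subgroup.mem_map.mp hq
    have h2 : γ.linear = q := h1
    change q v = v
    rw [← h2, linear_apply, hv γ hγ]
  simp only [this, Finset.sum_const, Finset.card_univ]
  rw [← Nat.cast_smul_eq_nsmul ℂ, smul_smul, inv_mul_cancel₀, one_smul]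
  exact_mod_cast Fintype.card_ne_zero

/-- If there is a nonzero fixed vector, some numerically trivial line bundle is not
semiample. -/
theorem exists_not_semiample (hΓ : IsTorusGroup Γ) (hfix : ¬ NoFixedVector Γ) :
    ∃ α : (V ≃ᵃ[ℂ] V) → ℂ, IsLineBundle Γ (0 : V →ₗ[ℂ] V →ₗ⋆[ℂ] ℂ) α ∧
      ∀ m, 1 ≤ m → ¬ GloballyGenerated Γ (0 : V →ₗ[ℂ] V →ₗ⋆[ℂ] ℂ) α m := by
  classical
  have := hΓ.finite
  have := Fintype.ofFinite (pointGroup Γ)
  rw [NoFixedVector] at hfix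
  push Not at hfix
  obtain ⟨v, hv, hv0⟩ := hfix
  have hspan : Submodule.span ℝ (translGroup Γ : Set V) = ⊤ := hΓ.span
  obtain ⟨x, hx, hx0⟩ : ∃ x ∈ translGroup Γ, avg Γ x ≠ 0 := by
    by_contra hcon
    push Not at hcon
    have h1 : Submodule.span ℝ (translGroup Γ : Set V) ≤
        LinearMap.ker ((avg Γ).restrictScalars ℝ) := by
      rw [Submodule.span_le]
      intro x hx
      exact hcon x hx
    rw [hspan] at h1
    have h2 : avg Γ v = 0 := h1 (Submodule.mem_top (x := v))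
    rw [avg_fixed hv] at h2
    exact hv0 h2
  obtain ⟨f, hf⟩ := SeparatingDual.exists_eq_one (R := ℝ) hx0
  set α : (V ≃ᵃ[ℂ] V) → ℂ := fun γ =>
    cexp (((2 * Real.pi * (Real.sqrt 2 * f (avg Γ (γ 0))) : ℝ) : ℂ) * I) with hα
  have hfac : ∀ (γ : V ≃ᵃ[ℂ] V) z, factor (0 : V →ₗ[ℂ] V →ₗ⋆[ℂ] ℂ) α γ z = α γ := by
    intro γ z
    rw [factor]
    simp
  refine ⟨α, ⟨⟨fun a b => by simp, fun γ _ a b => by simp, fun γ _ => ?_,
    fun γ hγ δ hδ z => ?_⟩, fun γ hγ z hz => ?_⟩, fun m hm hgg => ?_⟩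
  · rw [hα]
    exact Complex.norm_exp_ofReal_mul_I _
  · rw [hfac, hfac, hfac]
    change cexp _ = cexp _ * cexp _
    rw [← Complex.exp_add, ← add_mul, ← Complex.ofReal_add, mul_apply, avg_map hγ, map_add]
    congr 3
    ring
  · rw [hfac]
    have h1 := avg_map hγ z
    rw [hz] at h1
    have h2 : avg Γ (γ 0) = 0 := by
      have : avg Γ z + avg Γ (γ 0) = avg Γ z + 0 := by rw [← h1, add_zero]
      exact add_left_cancel this
    change cexp _ = 1
    rw [h2]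
    simp
  · obtain ⟨θ, ⟨hθd, hθ⟩, hθ0⟩ := hgg 0
    have hper : ∀ y ∈ translGroup Γ, ∀ z, ‖θ (z + y)‖ = ‖θ z‖ := by
      intro y hy z
      have h1 := hθ (tr y) hy z
      rw [tr_apply, hfac, add_comm] at h1
      rw [h1, norm_mul, norm_pow]
      have : ‖α (tr y)‖ = 1 := Complex.norm_exp_ofReal_mul_I _
      rw [this, one_pow, one_mul]
    have hb := bounded_of_periodic hθd.continuous (translGroup Γ) hspan hper
    have hconst := hθd.apply_eq_apply_of_bounded hb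
    have h1 := hθ (tr x) hx 0
    rw [hfac, hconst (tr x 0) 0] at h1
    have h2 : α (tr x) ^ m = 1 := by
      have : (α (tr x) ^ m - 1) * θ 0 = 0 := by linear_combination -h1
      exact sub_eq_zero.mp ((mul_eq_zero.mp this).resolve_right hθ0)
    have h3 : α (tr x) = cexp (((2 * Real.pi * Real.sqrt 2 : ℝ) : ℂ) * I) := by
      change cexp _ = cexp _
      rw [tr_apply, add_zero, hf, mul_one]
    rw [h3, ← Complex.exp_nat_mul, Complex.exp_eq_one_iff] at h2
    obtain ⟨n, hn⟩ := h2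
    have h4 : (m : ℝ) * Real.sqrt 2 = n := by
      have h5 := congrArg Complex.im hn
      simp at h5
      have hpi : (0 : ℝ) < 2 * Real.pi := by positivity
      apply mul_left_cancel₀ hpi.ne'
      linarith
    have hirr := irrational_sqrt_two.natCast_mul (m := m) (by omega)
    exact hirr ⟨n, by rw [h4]; simp⟩

end Pool.Agent.SYZ52
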