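import Pool.Agent.SYZ52.Coef

namespace Pool.Agent.SYZ52

open Complex

variable {V : Type*} [NormedAddCommGroup V] [NormedSpace ℂ V] [FiniteDimensional ℂ V]
variable {H : V →ₗ[ℂ] V →ₗ⋆[ℂ] ℂ}

/-- Existence of a theta function for a semipositive integral Hermitian form, possibly
degenerate. -/
theorem exists_theta (h : Herm H) (hn : Nef H) (L : AddSubgroup V)
    (hspan : Submodule.span ℝ (L : Set V) = ⊤)
    (hE : ∀ x ∈ L, ∀ y ∈ L, ∃ k : ℤ, (H x y).im = k) :
    ∃ Θ : V → ℂ, Differentiable ℂ Θ ∧ Θ 0 ≠ 0 ∧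
      ∀ x ∈ L, ∃ s : ℂ, s ≠ 0 ∧
        ∀ z, Θ (z + x) = s * cexp (Real.pi * H z x + Real.pi / 2 * H x x) * Θ z := by
  classical
  let b := Module.Basis.ofSpan (K := ℝ) (V := V) (s := (L : Set V)) hspan.ge
  have hb : ∀ i, b i ∈ L := fun i =>
    Module.Basis.ofSpan_subset (K := ℝ) hspan.ge ⟨i, rfl⟩
  have : Fintype ((linearIndepOn_empty ℝ (id : V → V)).extend
    (Set.empty_subset (L : Set V))) := FiniteDimensional.fintypeBasisIndex b
  obtain ⟨r, v, hv, hrep, hinj⟩ := exists_vectors b L hb hE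
  have hs : ∀ a : ℝ, 0 < a →
      Summable fun n : Fin r → ℤ => Real.exp (-a * (H (comb v n) (comb v n)).re) :=
    fun a ha => summable_quad b L hb hE h hn hv hinj ha
  obtain ⟨c, hc, hcm, hcE, hne⟩ := exists_coef h (fun i j => hE _ (hv i) _ (hv j)) hs
  refine ⟨theta H v c, differentiable_theta h hn hs hc, hne, fun x hx => ?_⟩
  obtain ⟨n₀, hn₀⟩ := hrep x hx
  refine ⟨(starRingEnd ℂ) (c n₀), ?_, fun z => theta_add h hc hcm hcE hn₀ z⟩
  intro h0
  have h1 := hc n₀
  rw [← RCLike.norm_conj, h0, norm_zero] at h1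
  exact zero_ne_one h1

omit [FiniteDimensional ℂ V] in
/-- The nonvanishing set of a nonzero entire function is dense. -/
theorem dense_ne_zero {Θ : V → ℂ} (hd : Differentiable ℂ Θ) {x₁ : V} (h1 : Θ x₁ ≠ 0) :
    Dense {x | Θ x ≠ 0} := by
  intro p
  by_contra hp
  rw [mem_closure_iff_nhds] at hp
  push Not at hp
  obtain ⟨U, hU, hUe⟩ := hp
  have hzero : ∀ x ∈ U, Θ x = 0 := by
    intro x hx
    by_contra hx0
    have : x ∈ U ∩ {x | Θ x ≠ 0} := ⟨hx, hx0⟩
    rw [hUe] at this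
    exact this
  set g : ℂ → V := fun t => p + t • (x₁ - p) with hg
  have hgd : Differentiable ℂ g := by
    rw [hg]
    fun_prop
  have hfd : Differentiable ℂ (Θ ∘ g) := hd.comp hgd
  have hfa : AnalyticOnNhd ℂ (Θ ∘ g) Set.univ := fun t _ => hfd.analyticAt t
  have hg0 : g 0 = p := by simp [hg]
  have hev : (Θ ∘ g) =ᶠ[nhds 0] fun _ => 0 := by
    have : g ⁻¹' U ∈ nhds (0 : ℂ) := by
      apply hgd.continuous.continuousAt.preimage_mem_nhds
      rwa [hg0]
    filter_upwards [this] with t ht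
    exact hzero _ ht
  have hall : (Θ ∘ g) = fun _ => 0 :=
    hfa.eq_of_eventuallyEq (fun _ _ => analyticAt_const) hev
  have := congrFun hall 1
  apply h1
  have hg1 : g 1 = x₁ := by simp [hg]
  simpa [Function.comp, hg1] using this

omit [FiniteDimensional ℂ V] in
/-- A translation moving finitely many points off the zero set. -/
theorem exists_translate {Θ : V → ℂ} (hd : Differentiable ℂ Θ) {x₁ : V} (h1 : Θ x₁ ≠ 0)
    (F : Finset V) : ∃ a : V, ∀ p ∈ F, Θ (p + a) ≠ 0 := by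
  classical
  have key : ∀ F : Finset V, Dense {a : V | ∀ p ∈ F, Θ (p + a) ≠ 0} ∧
      IsOpen {a : V | ∀ p ∈ F, Θ (p + a) ≠ 0} := by
    intro F
    induction F using Finset.induction_on with
    | empty => simp
    | insert p F _ ih =>
      have e : {a : V | ∀ q ∈ insert p F, Θ (q + a) ≠ 0} =
          {a : V | Θ (p + a) ≠ 0} ∩ {a : V | ∀ q ∈ F, Θ (q + a) ≠ 0} := by
        ext a
        simp
      have hdp : Differentiable ℂ fun a => Θ (p + a) := by
        exact hd.comp (differentiable_const p |>.add differentiable_id)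
      have hD : Dense {a : V | Θ (p + a) ≠ 0} :=
        dense_ne_zero (Θ := fun a => Θ (p + a)) hdp (x₁ := x₁ - p) (by simpa using h1)
      have hO : IsOpen {a : V | Θ (p + a) ≠ 0} :=
        isOpen_ne_fun hdp.continuous continuous_const
      rw [e]
      exact ⟨hD.inter_of_isOpen_left ih.1 hO, hO.inter ih.2⟩
  obtain ⟨a, ha⟩ := (key F).1.nonempty
  exact ⟨a, ha⟩

end Pool.Agent.SYZ52
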