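import Pool.Agent.SYZ52.NormMain

namespace Pool.Agent.SYZ52

open Complex

variable {V : Type*} [NormedAddCommGroup V] [NormedSpace ℂ V] [FiniteDimensional ℂ V]
variable {H : V →ₗ[ℂ] V →ₗ⋆[ℂ] ℂ} {α : (V ≃ᵃ[ℂ] V) → ℂ} {Γ : Subgroup (V ≃ᵃ[ℂ] V)}

/-- Without fixed vectors, the power with exponent the order of the point group of every nef
orbifold line bundle is globally generated. -/
theorem globallyGenerated (hΓ : IsTorusGroup Γ) (hfix : NoFixedVector Γ)
    (hL : IsOrbiBundle Γ H α) (hn : Nef H) :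
    GloballyGenerated Γ H α (Nat.card (pointGroup Γ)) := by
  classical
  intro z₀
  have := hΓ.finite
  have := Fintype.ofFinite (pointGroup Γ)
  obtain ⟨rep, hrepΓ, hreplin⟩ := exists_rep Γ
  have hspan : Submodule.span ℝ (translGroup Γ : Set V) = ⊤ := hΓ.span
  obtain ⟨Θ, hd, h0, hauto⟩ := exists_theta hL.herm hn (translGroup Γ) hspan
    (fun x hx y hy => im_integral hL hx hy)
  obtain ⟨a, ha⟩ := exists_translate hd h0 (Finset.univ.image fun q => rep q z₀)
  set Ψ : V → ℂ := fun z => cexp (-(Real.pi * H z a)) * Θ (z + a) with hΨ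
  have hΨd : Differentiable ℂ Ψ := by
    have h1 : Differentiable ℂ fun z => Θ (z + a) := by
      exact hd.comp (differentiable_id.add (differentiable_const a))
    have h2 : Differentiable ℂ fun z => cexp (-(Real.pi * H z a)) := by
      have e : (fun z => cexp (-(Real.pi * H z a))) =
          fun z => cexp (-(Real.pi * functional H a z)) := by
        funext z
        rw [functional_apply]
      rw [e]
      fun_prop
    exact h2.mul h1
  have hΨne : ∀ q, Ψ (rep q z₀) ≠ 0 := fun q =>
    mul_ne_zero (Complex.exp_ne_zero _)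
      (ha _ (Finset.mem_image.mpr ⟨q, Finset.mem_univ _, rfl⟩))
  have hauto' : ∀ x, tr x ∈ Γ → ∃ β : ℂ, β ≠ 0 ∧
      ∀ z, Ψ (z + x) = β * factor H α (tr x) z * Ψ z := by
    intro x hx
    obtain ⟨s, hs, hsz⟩ := hauto x hx
    have hα : α (tr x) ≠ 0 := by
      intro h
      have := hL.norm_one _ hx
      rw [h, norm_zero] at this
      exact zero_ne_one this
    refine ⟨s * cexp (Real.pi * (H a x - H x a)) * (α (tr x))⁻¹,
      mul_ne_zero (mul_ne_zero hs (Complex.exp_ne_zero _)) (inv_ne_zero hα), fun z => ?_⟩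
    change cexp (-(Real.pi * H (z + x) a)) * Θ (z + x + a) =
      _ * (cexp (-(Real.pi * H z a)) * Θ (z + a))
    have e1 : z + x + a = (z + a) + x := by abel
    rw [e1, hsz (z + a), factor_tr]
    have e2 : cexp (-(Real.pi * H (z + x) a)) *
        cexp (Real.pi * H (z + a) x + Real.pi / 2 * H x x) =
        cexp (Real.pi * (H a x - H x a)) *
        cexp (Real.pi * H z x + Real.pi / 2 * H x x) * cexp (-(Real.pi * H z a)) := by
      rw [← Complex.exp_add, ← Complex.exp_add, ← Complex.exp_add]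
      congr 1
      simp only [map_add, LinearMap.add_apply]
      ring
    calc cexp (-(Real.pi * H (z + x) a)) *
          (s * cexp (Real.pi * H (z + a) x + Real.pi / 2 * H x x) * Θ (z + a))
        = s * (cexp (-(Real.pi * H (z + x) a)) *
          cexp (Real.pi * H (z + a) x + Real.pi / 2 * H x x)) * Θ (z + a) := by ring
      _ = s * (cexp (Real.pi * (H a x - H x a)) *
        cexp (Real.pi * H z x + Real.pi / 2 * H x x) * cexp (-(Real.pi * H z a))) *
          Θ (z + a) := by rw [e2]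
      _ = _ := by
        field_simp
  obtain ⟨q₀⟩ : Nonempty (pointGroup Γ) := ⟨1⟩
  obtain ⟨θ, hθd, hθ, hθne⟩ := norm_section hL hfix rep hrepΓ hreplin hΨd (hΨne q₀) hauto'
  exact ⟨θ, ⟨hθd, hθ⟩, hθne z₀ hΨne⟩

/-- Powers of globally generated bundles are globally generated. -/
theorem GloballyGenerated.of_dvd {m n : ℕ} (h : GloballyGenerated Γ H α m) (hmn : m ∣ n) :
    GloballyGenerated Γ H α n := by
  obtain ⟨k, rfl⟩ := hmn
  intro z₀
  obtain ⟨θ, ⟨hd, hθ⟩, h0⟩ := h z₀
  refine ⟨fun z => θ z ^ k, ⟨hd.pow k, fun γ hγ z => ?_⟩, pow_ne_zero k h0⟩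
  change θ (γ z) ^ k = _
  rw [hθ γ hγ z, mul_pow, ← pow_mul]

end Pool.Agent.SYZ52
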