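import Pool.Agent.SYZ52.Lat

namespace Pool.Agent.SYZ52

open Complex

theorem summable_gauss_one {a : ℝ} (ha : 0 < a) :
    Summable fun k : ℤ => Real.exp (-a * (k : ℝ) ^ 2) := by
  have h := summable_pow_mul_jacobiTheta₂_term_bound 0 (T := a / Real.pi)
    (by positivity) 0
  refine h.congr fun k => ?_
  simp only [pow_zero, one_mul]
  congr 1
  have := Real.pi_ne_zero
  field_simp
  ring

theorem summable_gauss {ι : Type*} [Fintype ι] {a : ℝ} (ha : 0 < a) :
    Summable fun m : ι → ℤ => Real.exp (-a * ∑ i, (m i : ℝ) ^ 2) := by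
  classical
  have h1 := summable_gauss_one ha
  refine summable_of_sum_le (c := (∑' k : ℤ, Real.exp (-a * (k : ℝ) ^ 2)) ^ Fintype.card ι)
    (fun m => (Real.exp_pos _).le) fun u => ?_
  have h2 : ∀ m : ι → ℤ, Real.exp (-a * ∑ i, (m i : ℝ) ^ 2) =
      ∏ i, Real.exp (-a * (m i : ℝ) ^ 2) := by
    intro m
    rw [← Real.exp_sum, Finset.mul_sum]
  simp only [h2]
  calc ∑ m ∈ u, ∏ i, Real.exp (-a * (m i : ℝ) ^ 2)
      ≤ ∑ m ∈ Fintype.piFinset (fun i : ι => (u.image fun m => m i : Finset ℤ)),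
        ∏ i, Real.exp (-a * (m i : ℝ) ^ 2) := by
        refine Finset.sum_le_sum_of_subset_of_nonneg ?_ fun m _ _ =>
          Finset.prod_nonneg fun i _ => (Real.exp_pos _).le
        intro m hm
        rw [Fintype.mem_piFinset]
        intro i
        exact Finset.mem_image_of_mem _ hm
    _ = ∏ i, ∑ k ∈ (u.image (fun m => m i) : Finset ℤ), Real.exp (-a * (k : ℝ) ^ 2) := by
        rw [Finset.prod_univ_sum]
    _ ≤ ∏ _i : ι, ∑' k : ℤ, Real.exp (-a * (k : ℝ) ^ 2) := by
        refine Finset.prod_le_prod (fun i _ => Finset.sum_nonneg fun k _ =>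
          (Real.exp_pos _).le) fun i _ => ?_
        exact h1.sum_le_tsum _ fun k _ => (Real.exp_pos _).le
    _ = _ := by rw [Finset.prod_const, Finset.card_univ]

variable {V : Type*} [NormedAddCommGroup V] [NormedSpace ℂ V]
variable {H : V →ₗ[ℂ] V →ₗ⋆[ℂ] ℂ}

/-- The quadratic form on integer combinations dominates a sum of squares of distinct
integer vectors, so its Gaussian is summable. -/
theorem summable_quad {ι : Type*} [Fintype ι] (b : Module.Basis ι ℝ V) (L : AddSubgroup V)
    (hb : ∀ i, b i ∈ L) (hE : ∀ x ∈ L, ∀ y ∈ L, ∃ k : ℤ, (H x y).im = k)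
    (h : Herm H) (hn : Nef H) {r : ℕ} {v : Fin r → V} (hv : ∀ i, v i ∈ L)
    (hinj : ∀ n : Fin r → ℤ, (∀ i, (H (comb v n) (b i)).im = 0) → n = 0)
    {a : ℝ} (ha : 0 < a) :
    Summable fun n : Fin r → ℤ => Real.exp (-a * (H (comb v n) (comb v n)).re) := by
  classical
  choose f hf using fun (n : Fin r → ℤ) (i : ι) => hE (comb v n) (comb_mem hv n) (b i) (hb i)
  have hfinj : Function.Injective f := by
    intro n m hnm
    have : n - m = 0 := by
      apply hinj
      intro i
      have h1 : comb v n = comb v (n - m) + comb v m := by rw [← comb_add, sub_add_cancel]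
      have h2 : (H (comb v n) (b i)).im = (H (comb v m) (b i)).im := by
        rw [hf, hf, hnm]
      rw [h1, map_add, LinearMap.add_apply, Complex.add_im] at h2
      linarith
    exact sub_eq_zero.mp this
  set C : ℝ := ∑ i, (H (b i) (b i)).re + 1 with hC
  have hC0 : 0 < C := by
    have : 0 ≤ ∑ i, (H (b i) (b i)).re := Finset.sum_nonneg fun i _ => hn _
    linarith
  have hbound : ∀ n, (∑ i, (f n i : ℝ) ^ 2) ≤ (H (comb v n) (comb v n)).re * C := by
    intro n
    have h1 : ∀ i, (f n i : ℝ) ^ 2 ≤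
        (H (comb v n) (comb v n)).re * (H (b i) (b i)).re := by
      intro i
      rw [← hf n i]
      refine le_trans ?_ (cauchy h hn _ _)
      rw [← sq_abs]
      exact pow_le_pow_left₀ (abs_nonneg _) (Complex.abs_im_le_norm _) 2
    calc (∑ i, (f n i : ℝ) ^ 2) ≤ ∑ i, (H (comb v n) (comb v n)).re * (H (b i) (b i)).re :=
          Finset.sum_le_sum fun i _ => h1 i
      _ = (H (comb v n) (comb v n)).re * ∑ i, (H (b i) (b i)).re := by rw [Finset.mul_sum]
      _ ≤ _ := mul_le_mul_of_nonneg_left (by rw [hC]; linarith) (hn _)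
  have hs := (summable_gauss (ι := ι) (a := a / C) (by positivity)).comp_injective hfinj
  refine hs.of_nonneg_of_le (fun n => (Real.exp_pos _).le) fun n => ?_
  simp only [Function.comp]
  apply Real.exp_le_exp.mpr
  have h3 := hbound n
  have h4 : (∑ i, (f n i : ℝ) ^ 2) / C ≤ (H (comb v n) (comb v n)).re := by
    rw [div_le_iff₀ hC0]; exact h3
  have h5 : -(a / C) * ∑ i, (f n i : ℝ) ^ 2 = -(a * ((∑ i, (f n i : ℝ) ^ 2) / C)) := by
    field_simp
  rw [h5]
  nlinarith [mul_le_mul_of_nonneg_left h4 ha.le]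

end Pool.Agent.SYZ52
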