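import Pool.Agent.SYZ52.Defs

namespace Pool.Agent.SYZ52

open Complex

variable {V : Type*} [NormedAddCommGroup V] [NormedSpace ℂ V]

/-- Hermitian symmetry. -/
def Herm (H : V →ₗ[ℂ] V →ₗ⋆[ℂ] ℂ) : Prop := ∀ x y, H y x = (starRingEnd ℂ) (H x y)

variable {H : V →ₗ[ℂ] V →ₗ⋆[ℂ] ℂ}

theorem H_self_im (h : Herm H) (x : V) : (H x x).im = 0 := by
  have := congrArg Complex.im (h x x)
  simp only [conj_im] at this
  linarith

theorem H_self_eq (h : Herm H) (x : V) : H x x = ((H x x).re : ℂ) := by
  apply Complex.ext
  · simp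
  · simp [H_self_im h]

theorem H_smul_right (a : ℂ) (x y : V) : H x (a • y) = (starRingEnd ℂ) a * H x y := by
  rw [LinearMap.map_smulₛₗ]; rfl

theorem H_smul_left (a : ℂ) (x y : V) : H (a • x) y = a * H x y := by
  rw [LinearMap.map_smul, LinearMap.smul_apply]; rfl

theorem real_smul_eq (r : ℝ) (x : V) : r • x = (r : ℂ) • x := by
  rw [Complex.coe_smul]

theorem H_real_smul_right (r : ℝ) (x y : V) : H x (r • y) = (r : ℂ) * H x y := by
  rw [real_smul_eq, H_smul_right, Complex.conj_ofReal]

theorem H_real_smul_left (r : ℝ) (x y : V) : H (r • x) y = (r : ℂ) * H x y := by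
  rw [real_smul_eq, H_smul_left]

theorem H_im_symm (h : Herm H) (x y : V) : (H y x).im = -(H x y).im := by
  rw [h x y]; simp

theorem H_re_symm (h : Herm H) (x y : V) : (H y x).re = (H x y).re := by
  rw [h x y]; simp

/-- Cauchy-Schwarz. -/
theorem cauchy (h : Herm H) (hn : Nef H) (x y : V) :
    ‖H x y‖ ^ 2 ≤ (H x x).re * (H y y).re := by
  let c : PreInnerProductSpace.Core ℂ V :=
    { inner := fun a b => H b a
      conj_inner_symm := fun a b => by
        change (starRingEnd ℂ) (H a b) = H b a
        rw [h a b]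
      re_inner_nonneg := fun a => hn a
      add_left := fun a b d => by
        change H d (a + b) = H d a + H d b
        rw [map_add]
      smul_left := fun a b r => by
        change H b (r • a) = (starRingEnd ℂ) r * H b a
        exact H_smul_right r b a }
  have := @InnerProductSpace.Core.inner_mul_inner_self_le ℂ V _ _ _ c y x
  have h1 : ‖H y x‖ = ‖H x y‖ := by rw [h x y, RCLike.norm_conj]
  change ‖H x y‖ * ‖H y x‖ ≤ (H y y).re * (H x x).re at this
  rw [h1] at this
  nlinarith [this]

theorem cauchy' (h : Herm H) (hn : Nef H) (x y : V) :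
    ‖H x y‖ ≤ Real.sqrt (H x x).re * Real.sqrt (H y y).re := by
  rw [← Real.sqrt_mul (hn x)]
  exact Real.le_sqrt_of_sq_le (cauchy h hn x y)

/-- If the imaginary part of `H x ·` vanishes, so does `H x ·`. -/
theorem H_eq_zero_of_im (x : V) (h : ∀ y, (H x y).im = 0) (y : V) : H x y = 0 := by
  apply Complex.ext
  · have h1 := h (Complex.I • y)
    rw [H_smul_right, Complex.conj_I] at h1
    simp at h1
    simpa using h1
  · simpa using h y

theorem H_self_add (h : Herm H) (x y : V) :
    H (x + y) (x + y) = H x x + H y y + 2 * ((H x y).re : ℂ) := by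
  have h1 : H x y + H y x = 2 * ((H x y).re : ℂ) := by
    rw [h x y]
    apply Complex.ext
    · simp; ring
    · simp
  simp only [map_add, LinearMap.add_apply]
  linear_combination h1

end Pool.Agent.SYZ52
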