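import Pool.Agent.SYZ52.Herm

namespace Pool.Agent.SYZ52

open Complex

variable {V : Type*} [NormedAddCommGroup V] [NormedSpace ℂ V]
variable {H : V →ₗ[ℂ] V →ₗ⋆[ℂ] ℂ}

/-- integer combinations -/
def comb {r : ℕ} (v : Fin r → V) (n : Fin r → ℤ) : V := ∑ i, n i • v i

omit [NormedSpace ℂ V] in
theorem comb_add {r : ℕ} (v : Fin r → V) (n m : Fin r → ℤ) :
    comb v (n + m) = comb v n + comb v m := by
  simp [comb, add_smul, Finset.sum_add_distrib]

omit [NormedSpace ℂ V] in
theorem comb_mem {r : ℕ} {v : Fin r → V} {L : AddSubgroup V} (hv : ∀ i, v i ∈ L)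
    (n : Fin r → ℤ) : comb v n ∈ L :=
  sum_mem fun i _ => L.zsmul_mem (hv i) _

theorem exists_vectors {ι : Type*} [Fintype ι] (b : Module.Basis ι ℝ V) (L : AddSubgroup V)
    (hb : ∀ i, b i ∈ L) (hE : ∀ x ∈ L, ∀ y ∈ L, ∃ k : ℤ, (H x y).im = k) :
    ∃ (r : ℕ) (v : Fin r → V), (∀ i, v i ∈ L) ∧
      (∀ x ∈ L, ∃ n : Fin r → ℤ, ∀ y, H (x - comb v n) y = 0) ∧
      (∀ n : Fin r → ℤ, (∀ i, (H (comb v n) (b i)).im = 0) → n = 0) := by
  classical
  let M : Submodule ℤ (ι → ℤ) :=
    { carrier := {m | ∃ x ∈ L, ∀ i, (H x (b i)).im = m i}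
      add_mem' := by
        rintro m m' ⟨x, hx, h1⟩ ⟨y, hy, h2⟩
        refine ⟨x + y, L.add_mem hx hy, fun i => ?_⟩
        simp [h1, h2]
      zero_mem' := ⟨0, L.zero_mem, fun i => by simp⟩
      smul_mem' := by
        rintro c m ⟨x, hx, h1⟩
        refine ⟨c • x, L.zsmul_mem hx c, fun i => ?_⟩
        rw [map_zsmul, LinearMap.smul_apply]
        simp [h1] }
  obtain ⟨r, c⟩ := Submodule.basisOfPid (Pi.basisFun ℤ ι) M
  choose v hv1 hv2 using fun j : Fin r => (c j).2
  have key : ∀ (n : Fin r → ℤ) (i : ι), (H (comb v n) (b i)).im =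
      (((∑ j, n j • c j : M) : ι → ℤ) i : ℤ) := by
    intro n i
    have h1 : (H (comb v n) (b i)).im = ∑ j, (n j : ℝ) * (H (v j) (b i)).im := by
      rw [comb, map_sum, LinearMap.sum_apply, Complex.im_sum]
      refine Finset.sum_congr rfl fun j _ => ?_
      rw [map_zsmul, LinearMap.smul_apply]
      simp
    rw [h1]
    simp only [hv2]
    simp
  refine ⟨r, v, hv1, ?_, ?_⟩
  · intro x hx
    choose f hf using fun i => hE x hx (b i) (hb i)
    have hfM : f ∈ M := ⟨x, hx, hf⟩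
    refine ⟨fun j => c.repr ⟨f, hfM⟩ j, fun y => ?_⟩
    apply H_eq_zero_of_im
    have h0 : ∀ i, (H (x - comb v fun j => c.repr ⟨f, hfM⟩ j) (b i)).im = 0 := by
      intro i
      rw [map_sub, LinearMap.sub_apply, Complex.sub_im, key, hf, c.sum_repr]
      simp
    intro y
    rw [← b.sum_repr y, map_sum, Complex.im_sum]
    apply Finset.sum_eq_zero
    intro i _
    rw [H_real_smul_right, Complex.im_ofReal_mul, h0 i, mul_zero]
  · intro n hn
    have h1 : (∑ j, n j • c j : M) = 0 := by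
      apply Subtype.ext
      funext i
      have := hn i
      rw [key] at this
      exact_mod_cast this
    have := (Fintype.linearIndependent_iff.mp c.linearIndependent) n h1
    funext j
    exact this j

end Pool.Agent.SYZ52
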