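import Pool.Agent.SYZ52.Auto

namespace Pool.Agent.SYZ52

open Complex Finset Filter Topology

theorem char_sum_one {K : ℕ} (hK : 0 < K) (n : ℤ) :
    ∑ k ∈ range K, cexp (2 * Real.pi * I * ((k : ℂ) / K * n)) =
      if (K : ℤ) ∣ n then (K : ℂ) else 0 := by
  have hK' : (K : ℂ) ≠ 0 := by exact_mod_cast hK.ne'
  set ζ : ℂ := cexp (2 * Real.pi * I * ((n : ℂ) / K)) with hζ
  have h1 : ∀ k : ℕ, cexp (2 * Real.pi * I * ((k : ℂ) / K * n)) = ζ ^ k := by
    intro k
    rw [hζ, ← Complex.exp_nat_mul]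
    congr 1
    ring
  simp only [h1]
  have h2 : ζ ^ K = 1 := by
    rw [hζ, ← Complex.exp_nat_mul]
    rw [Complex.exp_eq_one_iff]
    refine ⟨n, ?_⟩
    field_simp
  split_ifs with hd
  · obtain ⟨m, hm⟩ := hd
    have h3 : ζ = 1 := by
      rw [hζ, Complex.exp_eq_one_iff]
      refine ⟨m, ?_⟩
      rw [hm]
      push_cast
      field_simp
    simp [h3]
  · have h3 : ζ ≠ 1 := by
      intro h
      rw [hζ, Complex.exp_eq_one_iff] at h
      obtain ⟨m, hm⟩ := h
      apply hd
      refine ⟨m, ?_⟩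
      have h4 : (n : ℂ) / K = m := by
        have h5 : (2 * Real.pi * I : ℂ) ≠ 0 := Complex.two_pi_I_ne_zero
        have h6 : 2 * (Real.pi : ℂ) * I * ((n : ℂ) / K) = 2 * Real.pi * I * m := by
          rw [hm]; ring
        exact mul_left_cancel₀ h5 h6
      rw [div_eq_iff hK'] at h4
      have h5 : (n : ℂ) = ((K : ℤ) * m : ℤ) := by
        rw [h4]; push_cast; ring
      exact_mod_cast h5
    rw [geom_sum_eq h3, h2, sub_self, zero_div]

theorem char_sum {r K : ℕ} (hK : 0 < K) (n : Fin r → ℤ) :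
    ∑ k ∈ Fintype.piFinset (fun _ : Fin r => range K),
      cexp (2 * Real.pi * I * ∑ j, ((k j : ℂ) / K * n j)) =
      if ∀ j, (K : ℤ) ∣ n j then (K : ℂ) ^ r else 0 := by
  have h1 : ∀ k : Fin r → ℕ, cexp (2 * Real.pi * I * ∑ j, ((k j : ℂ) / K * n j)) =
      ∏ j, cexp (2 * Real.pi * I * ((k j : ℂ) / K * n j)) := by
    intro k
    rw [← Complex.exp_sum, Finset.mul_sum]
  simp only [h1]
  rw [← Finset.prod_univ_sum (fun _ : Fin r => range K)
    (fun j k => cexp (2 * Real.pi * I * ((k : ℂ) / K * n j)))]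
  simp only [char_sum_one hK]
  split_ifs with hd
  · simp [hd]
  · push Not at hd
    obtain ⟨j, hj⟩ := hd
    exact Finset.prod_eq_zero (mem_univ j) (by simp [hj])

/-- An absolutely convergent Fourier series vanishing identically has zero constant term. -/
theorem exists_ne_zero {r : ℕ} {a : (Fin r → ℤ) → ℂ} (ha : Summable fun n => ‖a n‖)
    (h0 : a 0 ≠ 0) : ∃ t : Fin r → ℝ,
      ∑' n, a n * cexp (2 * Real.pi * I * ∑ j, ((t j : ℂ) * n j)) ≠ 0 := by
  by_contra! hcon
  have hn : ∀ (t : Fin r → ℝ) (n : Fin r → ℤ),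
      ‖cexp (2 * Real.pi * I * ∑ j, ((t j : ℂ) * n j))‖ = 1 := by
    intro t n
    rw [show (2 * Real.pi * I * ∑ j, ((t j : ℂ) * n j) : ℂ) =
      ((2 * Real.pi * ∑ j, (t j * n j) : ℝ) : ℂ) * I by push_cast; ring]
    exact Complex.norm_exp_ofReal_mul_I _
  have hsum : ∀ t : Fin r → ℝ,
      Summable fun n => a n * cexp (2 * Real.pi * I * ∑ j, ((t j : ℂ) * n j)) := by
    intro t
    refine Summable.of_norm ?_
    refine ha.congr fun n => ?_
    rw [norm_mul, hn, mul_one]
  have key : ∀ K : ℕ, 0 < K →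
      ∑' n, a n * (if ∀ j, (K : ℤ) ∣ n j then (1 : ℂ) else 0) = 0 := by
    intro K hK
    have hK' : (K : ℂ) ^ r ≠ 0 := pow_ne_zero _ (by exact_mod_cast hK.ne')
    have h1 : ∑ k ∈ Fintype.piFinset (fun _ : Fin r => range K),
        ∑' n, a n * cexp (2 * Real.pi * I * ∑ j, (((k j / K : ℝ) : ℂ) * n j)) = 0 :=
      Finset.sum_eq_zero fun k _ => hcon _
    rw [← Summable.tsum_finsetSum fun k _ => hsum _] at h1
    have h2 : ∀ n, ∑ k ∈ Fintype.piFinset (fun _ : Fin r => range K),
        a n * cexp (2 * Real.pi * I * ∑ j, (((k j / K : ℝ) : ℂ) * n j)) =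
        (K : ℂ) ^ r * (a n * (if ∀ j, (K : ℤ) ∣ n j then (1 : ℂ) else 0)) := by
      intro n
      rw [← Finset.mul_sum]
      have h3 := char_sum (r := r) hK n
      have h4 : ∑ k ∈ Fintype.piFinset (fun _ : Fin r => range K),
          cexp (2 * Real.pi * I * ∑ j, (((k j / K : ℝ) : ℂ) * n j)) =
          ∑ k ∈ Fintype.piFinset (fun _ : Fin r => range K),
          cexp (2 * Real.pi * I * ∑ j, ((k j : ℂ) / K * n j)) := by
        refine Finset.sum_congr rfl fun k _ => ?_
        push_cast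
        rfl
      rw [h4, h3]
      split_ifs <;> ring
    simp only [h2] at h1
    rw [tsum_mul_left] at h1
    exact (mul_eq_zero.mp h1).resolve_left hK'
  have hlim : Tendsto (fun K : ℕ => ∑' n, a n *
      (if ∀ j, ((K + 1 : ℕ) : ℤ) ∣ n j then (1 : ℂ) else 0)) atTop
      (𝓝 (∑' n, a n * (if n = 0 then (1 : ℂ) else 0))) := by
    refine tendsto_tsum_of_dominated_convergence ha (fun n => ?_)
      (Eventually.of_forall fun K n => ?_)
    · refine Tendsto.const_mul _ ?_
      by_cases h : n = 0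
      · subst h
        simp
      · rw [if_neg h]
        have : ∃ j, n j ≠ 0 := by
          by_contra! h'
          exact h (funext h')
        obtain ⟨j, hj⟩ := this
        refine tendsto_const_nhds.congr' ?_
        filter_upwards [eventually_ge_atTop (n j).natAbs] with K hK
        rw [if_neg]
        intro hd
        have h1 := Int.le_of_dvd (abs_pos.mpr hj) ((dvd_abs _ _).mpr (hd j))
        rw [Int.abs_eq_natAbs] at h1
        omega
    · rw [norm_mul]
      split_ifs <;> simp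
  have h1 : ∑' n, a n * (if n = 0 then (1 : ℂ) else 0) = a 0 := by
    rw [tsum_eq_single 0]
    · simp
    · intro n hn0
      simp [hn0]
  rw [h1] at hlim
  have h2 : (fun K : ℕ => ∑' n, a n *
      (if ∀ j, ((K + 1 : ℕ) : ℤ) ∣ n j then (1 : ℂ) else 0)) = fun _ => 0 := by
    funext K
    exact key (K + 1) (Nat.succ_pos K)
  rw [h2] at hlim
  exact h0 (tendsto_nhds_unique hlim tendsto_const_nhds)

end Pool.Agent.SYZ52
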