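import Pool.Agent.SYZ52.Exist

namespace Pool.Agent.SYZ52

open Complex

variable {V : Type*} [NormedAddCommGroup V] [NormedSpace ℂ V]
variable {H : V →ₗ[ℂ] V →ₗ⋆[ℂ] ℂ} {α : (V ≃ᵃ[ℂ] V) → ℂ} {Γ : Subgroup (V ≃ᵃ[ℂ] V)}

/-- translation by `x` -/
abbrev tr (x : V) : V ≃ᵃ[ℂ] V := AffineEquiv.constVAdd ℂ V x

theorem tr_apply (x z : V) : tr x z = x + z := rfl

theorem mul_apply (a b : V ≃ᵃ[ℂ] V) (z : V) : (a * b) z = a (b z) := rfl

theorem tr_add (x y : V) : (tr (x + y) : V ≃ᵃ[ℂ] V) = tr x * tr y := by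
  ext z
  simp [mul_apply, tr_apply, add_assoc]

theorem tr_zero : (tr (0 : V) : V ≃ᵃ[ℂ] V) = 1 := by
  ext z
  simp [tr_apply]

theorem tr_neg (x : V) : (tr (-x) : V ≃ᵃ[ℂ] V) = (tr x)⁻¹ := by
  rw [eq_inv_iff_mul_eq_one, ← tr_add, neg_add_cancel, tr_zero]

/-- The translation lattice as an additive subgroup. -/
def translGroup (Γ : Subgroup (V ≃ᵃ[ℂ] V)) : AddSubgroup V where
  carrier := transl Γ
  add_mem' := by
    intro x y hx hy
    change tr (x + y) ∈ Γ
    rw [tr_add]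
    exact Γ.mul_mem hx hy
  zero_mem' := by
    change tr 0 ∈ Γ
    rw [tr_zero]
    exact Γ.one_mem
  neg_mem' := by
    intro x hx
    change tr (-x) ∈ Γ
    rw [tr_neg]
    exact Γ.inv_mem hx

theorem mem_translGroup {x : V} : x ∈ translGroup Γ ↔ tr x ∈ Γ := Iff.rfl

theorem linear_apply (a : V ≃ᵃ[ℂ] V) (v : V) : a.linear v = a v - a 0 := by
  have := a.toAffineMap.linearMap_vsub v 0
  simpa using this

theorem eq_tr_mul {a b : V ≃ᵃ[ℂ] V} (hab : ∀ v, a v - a 0 = b v - b 0) :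
    a = tr (a 0 - b 0) * b := by
  ext z
  rw [mul_apply, tr_apply]
  have h1 : a z = b z - b 0 + a 0 := by rw [← hab z]; abel
  rw [h1]
  abel

theorem factor_ne_zero (hα : ∀ γ ∈ Γ, ‖α γ‖ = 1) {γ : V ≃ᵃ[ℂ] V} (hγ : γ ∈ Γ) (z : V) :
    factor H α γ z ≠ 0 := by
  rw [factor]
  refine mul_ne_zero ?_ (Complex.exp_ne_zero _)
  intro h
  have := hα γ hγ
  rw [h, norm_zero] at this
  exact zero_ne_one this

theorem factor_tr (x z : V) :
    factor H α (tr x) z = α (tr x) * cexp (Real.pi * H z x + Real.pi / 2 * H x x) := by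
  rw [factor]
  simp [tr_apply]

/-- The imaginary part of the Hermitian form is integral on the translation lattice. -/
theorem im_integral (hL : IsOrbiBundle Γ H α) {x y : V} (hx : tr x ∈ Γ) (hy : tr y ∈ Γ) :
    ∃ k : ℤ, (H x y).im = k := by
  have h1 := hL.cocycle _ hx _ hy 0
  have h2 := hL.cocycle _ hy _ hx 0
  have hc : (tr x : V ≃ᵃ[ℂ] V) * tr y = tr y * tr x := by
    rw [← tr_add, ← tr_add, add_comm]
  rw [hc] at h1
  rw [h1] at h2
  simp only [factor_tr, tr_apply, add_zero] at h2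
  have hα : ∀ {w : V}, tr w ∈ Γ → α (tr w) ≠ 0 := by
    intro w hw h0
    have := hL.norm_one _ hw
    rw [h0, norm_zero] at this
    exact zero_ne_one this
  have h3 : cexp (Real.pi * H y x) = cexp (Real.pi * H x y) := by
    rw [Complex.exp_add, Complex.exp_add, Complex.exp_add, Complex.exp_add] at h2
    simp only [map_zero, LinearMap.zero_apply, mul_zero, Complex.exp_zero, one_mul] at h2
    have hne : α (tr x) * α (tr y) * cexp (Real.pi / 2 * H x x) *
        cexp (Real.pi / 2 * H y y) ≠ 0 :=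
      mul_ne_zero (mul_ne_zero (mul_ne_zero (hα hx) (hα hy)) (Complex.exp_ne_zero _))
        (Complex.exp_ne_zero _)
    apply mul_left_cancel₀ hne
    linear_combination h2
  rw [Complex.exp_eq_exp_iff_exists_int] at h3
  obtain ⟨n, hn⟩ := h3
  refine ⟨-n, ?_⟩
  have h4 := congrArg Complex.im hn
  have h5 := H_im_symm hL.herm x y
  have hpi := Real.pi_pos
  simp at h4
  rw [h5] at h4
  have h6 : Real.pi * (2 * (H x y).im + 2 * n) = 0 := by linarith
  have h7 : 2 * (H x y).im + 2 * (n : ℝ) = 0 :=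
    (mul_eq_zero.mp h6).resolve_left hpi.ne'
  push_cast
  linarith

end Pool.Agent.SYZ52
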