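import Pool.Agent.SYZ52.Norm

namespace Pool.Agent.SYZ52

open Complex

variable {V : Type*} [NormedAddCommGroup V] [NormedSpace ℂ V] [FiniteDimensional ℂ V]
variable {H : V →ₗ[ℂ] V →ₗ⋆[ℂ] ℂ} {α : (V ≃ᵃ[ℂ] V) → ℂ} {Γ : Subgroup (V ≃ᵃ[ℂ] V)}

omit [FiniteDimensional ℂ V] in
theorem prod_char {ι : Type*} {L : AddSubgroup V} {β : V → ℂ} (h0 : β 0 = 1)
    (hm : ∀ x ∈ L, ∀ y ∈ L, β (x + y) = β x * β y) (s : Finset ι) (x : ι → V)
    (hx : ∀ i, x i ∈ L) : ∏ i ∈ s, β (x i) = β (∑ i ∈ s, x i) := by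
  classical
  induction s using Finset.induction_on with
  | empty => simp [h0]
  | insert i s hi ih =>
    rw [Finset.prod_insert hi, Finset.sum_insert hi, ih,
      hm _ (hx i) _ (sum_mem fun j _ => hx j)]

theorem differentiable_factor (γ : V ≃ᵃ[ℂ] V) : Differentiable ℂ (factor H α γ) := by
  have h1 : ∀ z, factor H α γ z = α γ * cexp (Real.pi *
      functional H (γ 0) (LinearMap.toContinuousLinearMap (γ.linear : V →ₗ[ℂ] V) z) +
      Real.pi / 2 * H (γ 0) (γ 0)) := by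
    intro z
    rw [factor, functional_apply]
    have : (LinearMap.toContinuousLinearMap (γ.linear : V →ₗ[ℂ] V)) z = γ z - γ 0 := by
      rw [← linear_apply]; rfl
    rw [this]
  have h2 : factor H α γ = fun z => α γ * cexp (Real.pi *
      functional H (γ 0) (LinearMap.toContinuousLinearMap (γ.linear : V →ₗ[ℂ] V) z) +
      Real.pi / 2 * H (γ 0) (γ 0)) := funext h1
  rw [h2]
  fun_prop

theorem differentiable_affine (γ : V ≃ᵃ[ℂ] V) : Differentiable ℂ γ := by
  have h1 : (γ : V → V) = fun z =>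
      LinearMap.toContinuousLinearMap (γ.linear : V →ₗ[ℂ] V) z + γ 0 := by
    funext z
    have : (LinearMap.toContinuousLinearMap (γ.linear : V →ₗ[ℂ] V)) z = γ z - γ 0 := by
      rw [← linear_apply]; rfl
    rw [this]
    abel
  rw [h1]
  fun_prop

/-- Representatives of the point group. -/
theorem exists_rep (Γ : Subgroup (V ≃ᵃ[ℂ] V)) : ∃ rep : pointGroup Γ → (V ≃ᵃ[ℂ] V),
    (∀ q, rep q ∈ Γ) ∧ ∀ q, (rep q).linear = (q : V ≃ₗ[ℂ] V) := by
  have hrep : ∀ q : pointGroup Γ, ∃ γ ∈ Γ, γ.linear = (q : V ≃ₗ[ℂ] V) := by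
    rintro ⟨q, hq⟩
    obtain ⟨γ, hγ, h1⟩ := Subgroup.mem_map.mp hq
    exact ⟨γ, hγ, h1⟩
  choose rep hrepΓ hreplin using hrep
  exact ⟨rep, hrepΓ, hreplin⟩

theorem differentiable_prod {ι : Type*} (s : Finset ι) (f : ι → V → ℂ)
    (hf : ∀ i, Differentiable ℂ (f i)) : Differentiable ℂ fun z => ∏ i ∈ s, f i z := by
  classical
  induction s using Finset.induction_on with
  | empty => simp
  | insert i s hi ih =>
    have : (fun z => ∏ j ∈ insert i s, f j z) = fun z => f i z * ∏ j ∈ s, f j z := by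
      funext z
      rw [Finset.prod_insert hi]
    rw [this]
    exact (hf i).mul ih

/-- The norm over the point group of a section of a twisted bundle. -/
theorem norm_section (hL : IsOrbiBundle Γ H α) [Finite (pointGroup Γ)]
    (hfix : NoFixedVector Γ) (rep : pointGroup Γ → (V ≃ᵃ[ℂ] V)) (hrepΓ : ∀ q, rep q ∈ Γ)
    (hreplin : ∀ q, (rep q).linear = (q : V ≃ₗ[ℂ] V))
    {Ψ : V → ℂ} (hd : Differentiable ℂ Ψ) {z₁ : V} (hz₁ : Ψ z₁ ≠ 0)
    (hauto : ∀ x, tr x ∈ Γ → ∃ β : ℂ, β ≠ 0 ∧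
      ∀ z, Ψ (z + x) = β * factor H α (tr x) z * Ψ z) :
    ∃ θ : V → ℂ, Differentiable ℂ θ ∧
      (∀ γ ∈ Γ, ∀ z, θ (γ z) = factor H α γ z ^ Nat.card (pointGroup Γ) * θ z) ∧
      ∀ z, (∀ q, Ψ (rep q z) ≠ 0) → θ z ≠ 0 := by
  classical
  have := Fintype.ofFinite (pointGroup Γ)
  have hreplin' : ∀ q v, rep q v - rep q 0 = (q : V ≃ₗ[ℂ] V) v := by
    intro q v
    rw [← linear_apply, hreplin]
  -- the character β
  have hβex : ∀ x, ∃ β : ℂ, (tr x ∈ Γ → β ≠ 0 ∧
      ∀ z, Ψ (z + x) = β * factor H α (tr x) z * Ψ z) := by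
    intro x
    by_cases hx : tr x ∈ Γ
    · obtain ⟨β, h1, h2⟩ := hauto x hx
      exact ⟨β, fun _ => ⟨h1, h2⟩⟩
    · exact ⟨1, fun h => absurd h hx⟩
  choose β hβ using hβex
  have hβm : ∀ x ∈ translGroup Γ, ∀ y ∈ translGroup Γ, β (x + y) = β x * β y := by
    intro x hx y hy
    have hxy : tr (x + y) ∈ Γ := (translGroup Γ).add_mem hx hy
    have e1 := (hβ (x + y) hxy).2 z₁
    have e2 := (hβ y hy).2 z₁
    have e3 := (hβ x hx).2 (y + z₁)
    have e4 := hL.cocycle _ hx _ hy z₁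
    rw [← tr_add, tr_apply] at e4
    have e5 : z₁ + (x + y) = y + z₁ + x := by abel
    rw [e5, e3, add_comm y z₁, e2, e4, add_comm y z₁] at e1
    have f1 := factor_ne_zero (H := H) hL.norm_one hx (z₁ + y)
    have f2 := factor_ne_zero (H := H) hL.norm_one hy z₁
    have hne : factor H α (tr x) (z₁ + y) * factor H α (tr y) z₁ * Ψ z₁ ≠ 0 :=
      mul_ne_zero (mul_ne_zero f1 f2) hz₁
    apply mul_right_cancel₀ hne
    linear_combination -e1
  have h0mem : (0 : V) ∈ translGroup Γ := (translGroup Γ).zero_mem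
  have hβ0 : β 0 = 1 := by
    have e1 := hβm 0 h0mem 0 h0mem
    rw [add_zero] at e1
    have e2 := (hβ 0 h0mem).1
    have : β 0 * (β 0 - 1) = 0 := by linear_combination -e1
    exact sub_eq_zero.mp ((mul_eq_zero.mp this).resolve_left e2)
  -- the twisted values
  set u : (V ≃ᵃ[ℂ] V) → V → ℂ := fun γ z => Ψ (γ z) * (factor H α γ z)⁻¹ with hu
  have hu1 : ∀ b ∈ Γ, ∀ x, tr x ∈ Γ → ∀ z, u (tr x * b) z = β x * u b z := by
    intro b hb x hx z
    have e1 := (hβ x hx).2 (b z)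
    have e2 := hL.cocycle _ hx _ hb z
    have f1 := factor_ne_zero (H := H) hL.norm_one hx (b z)
    have f2 := factor_ne_zero (H := H) hL.norm_one hb z
    change Ψ ((tr x * b) z) * (factor H α (tr x * b) z)⁻¹ = β x * (Ψ (b z) * _)
    rw [mul_apply, tr_apply, add_comm x (b z), e1, e2]
    field_simp
  have hu2 : ∀ a ∈ Γ, ∀ γ ∈ Γ, ∀ z, u a (γ z) = factor H α γ z * u (a * γ) z := by
    intro a ha γ hγ z
    have e2 := hL.cocycle _ ha _ hγ z
    have f1 := factor_ne_zero (H := H) hL.norm_one ha (γ z)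
    have f2 := factor_ne_zero (H := H) hL.norm_one hγ z
    change Ψ (a (γ z)) * (factor H α a (γ z))⁻¹ =
      factor H α γ z * (Ψ ((a * γ) z) * (factor H α (a * γ) z)⁻¹)
    rw [e2, mul_apply]
    field_simp
  refine ⟨fun z => ∏ q, u (rep q) z, ?_, ?_, ?_⟩
  · have : ∀ q, Differentiable ℂ (u (rep q)) := by
      intro q
      rw [hu]
      refine (hd.comp (differentiable_affine _)).mul ?_
      exact (differentiable_factor _).inv fun z =>
        factor_ne_zero (H := H) hL.norm_one (hrepΓ q) z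
    exact differentiable_prod _ _ this
  · intro γ hγ z
    have hg : γ.linear ∈ pointGroup Γ := ⟨γ, hγ, rfl⟩
    set g : pointGroup Γ := ⟨γ.linear, hg⟩ with hgdef
    set x : pointGroup Γ → V := fun q => (rep q * γ) 0 - rep (q * g) 0 with hx
    have hlin : ∀ q v, (rep q * γ) v - (rep q * γ) 0 = rep (q * g) v - rep (q * g) 0 := by
      intro q v
      rw [hreplin', ← linear_apply]
      have : (rep q * γ).linear = (rep q).linear * γ.linear := rfl
      rw [this, hreplin]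
      rfl
    have hmul : ∀ q, rep q * γ = tr (x q) * rep (q * g) := fun q => eq_tr_mul (hlin q)
    have hxΓ : ∀ q, tr (x q) ∈ Γ := by
      intro q
      have : tr (x q) = (rep q * γ) * (rep (q * g))⁻¹ := by
        rw [hmul q, mul_assoc, mul_inv_cancel, mul_one]
      rw [this]
      exact Γ.mul_mem (Γ.mul_mem (hrepΓ q) hγ) (Γ.inv_mem (hrepΓ _))
    have hS : ∑ q, x q = 0 := by
      have e1 : ∑ q, x q = ∑ q : pointGroup Γ, (q : V ≃ₗ[ℂ] V) (γ 0) := by
        have e2 : ∑ q, rep (q * g) 0 = ∑ q, rep q 0 :=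
          Equiv.sum_comp (Equiv.mulRight g) fun q => rep q 0
        rw [hx]
        simp only [mul_apply]
        rw [Finset.sum_sub_distrib, e2, ← Finset.sum_sub_distrib]
        refine Finset.sum_congr rfl fun q _ => ?_
        rw [hreplin']
      rw [e1]
      apply hfix
      intro δ hδ
      have hd' : δ.linear ∈ pointGroup Γ := ⟨δ, hδ, rfl⟩
      rw [← linear_apply, map_sum]
      exact Equiv.sum_comp (Equiv.mulLeft (⟨δ.linear, hd'⟩ : pointGroup Γ))
        fun q : pointGroup Γ => (q : V ≃ₗ[ℂ] V) (γ 0)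
    have hprodβ : ∏ q, β (x q) = 1 := by
      rw [prod_char (L := translGroup Γ) hβ0 hβm Finset.univ x hxΓ, hS, hβ0]
    have e3 : ∀ q, u (rep q) (γ z) = factor H α γ z * (β (x q) * u (rep (q * g)) z) := by
      intro q
      rw [hu2 _ (hrepΓ q) _ hγ, hmul q, hu1 _ (hrepΓ _) _ (hxΓ q)]
    change ∏ q, u (rep q) (γ z) = _
    simp only [e3]
    rw [Finset.prod_mul_distrib, Finset.prod_mul_distrib, hprodβ, one_mul,
      Finset.prod_const, Finset.card_univ, Nat.card_eq_fintype_card]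
    congr 1
    exact Equiv.prod_comp (Equiv.mulRight g) fun q => u (rep q) z
  · intro z hz
    change ∏ q, u (rep q) z ≠ 0
    refine Finset.prod_ne_zero_iff.mpr fun q _ => ?_
    exact mul_ne_zero (hz q) (inv_ne_zero (factor_ne_zero (H := H) hL.norm_one (hrepΓ q) z))

end Pool.Agent.SYZ52
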