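import Pool.Agent.SYZ52.Gauss

namespace Pool.Agent.SYZ52

open Complex

variable {V : Type*} [NormedAddCommGroup V] [NormedSpace ℂ V] [FiniteDimensional ℂ V]
variable {H : V →ₗ[ℂ] V →ₗ⋆[ℂ] ℂ}

theorem exists_bound (H : V →ₗ[ℂ] V →ₗ⋆[ℂ] ℂ) :
    ∃ K : ℝ, 0 < K ∧ ∀ x y, ‖H x y‖ ≤ K * ‖x‖ * ‖y‖ := by
  let B : V →ₗ[ℝ] V →ₗ[ℝ] ℂ := LinearMap.mk₂ ℝ (fun x y => H x y)
    (fun x y z => by simp) (fun r x y => by rw [H_real_smul_left]; simp)
    (fun x y z => by simp) (fun r x y => by rw [H_real_smul_right]; simp)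
  refine ⟨‖B.toContinuousBilinearMap‖ + 1, by positivity, fun x y => ?_⟩
  have h := B.toContinuousBilinearMap.le_opNorm₂ x y
  have h1 : B.toContinuousBilinearMap x y = H x y := rfl
  rw [h1] at h
  refine h.trans ?_
  gcongr
  linarith

/-- the terms of the theta series -/
noncomputable def term (H : V →ₗ[ℂ] V →ₗ⋆[ℂ] ℂ) (w : V) (c : ℂ) (z : V) : ℂ :=
  c * cexp (-(Real.pi * H z w) - Real.pi / 2 * H w w)

omit [FiniteDimensional ℂ V] in
theorem norm_term (c : ℂ) (hc : ‖c‖ = 1) (w z : V) :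
    ‖term H w c z‖ = Real.exp (-(Real.pi * (H z w).re) - Real.pi / 2 * (H w w).re) := by
  rw [term, norm_mul, hc, one_mul, Complex.norm_exp]
  congr 1
  simp [Complex.mul_re]

omit [FiniteDimensional ℂ V] in
theorem norm_term_le (h : Herm H) (hn : Nef H) (c : ℂ) (hc : ‖c‖ = 1) (w z : V) :
    ‖term H w c z‖ ≤
      Real.exp (Real.pi * (H z z).re) * Real.exp (-(Real.pi / 4) * (H w w).re) := by
  rw [norm_term c hc, ← Real.exp_add]
  apply Real.exp_le_exp.mpr
  have h1 : -(H z w).re ≤ ‖H z w‖ := by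
    have := Complex.abs_re_le_norm (H z w)
    exact (neg_le_abs _).trans this
  have h2 := cauchy' h hn z w
  set x := Real.sqrt (H z z).re
  set y := Real.sqrt (H w w).re
  have hx : x ^ 2 = (H z z).re := Real.sq_sqrt (hn z)
  have hy : y ^ 2 = (H w w).re := Real.sq_sqrt (hn w)
  have h3 : -(H z w).re ≤ x ^ 2 + y ^ 2 / 4 := by nlinarith [sq_nonneg (x - y / 2)]
  rw [← hx, ← hy]
  have hpi := Real.pi_pos
  nlinarith [mul_le_mul_of_nonneg_left h3 hpi.le]

/-- `H · w` as a continuous linear functional. -/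
noncomputable def functional (H : V →ₗ[ℂ] V →ₗ⋆[ℂ] ℂ) (w : V) : V →L[ℂ] ℂ :=
  LinearMap.toContinuousLinearMap
    { toFun := fun z => H z w
      map_add' := fun x y => by simp
      map_smul' := fun a x => by rw [H_smul_left]; rfl }

theorem functional_apply (w z : V) : functional H w z = H z w := rfl

theorem norm_functional_le {K : ℝ} (hK : 0 < K) (hb : ∀ x y, ‖H x y‖ ≤ K * ‖x‖ * ‖y‖)
    (h : Herm H) (hn : Nef H) (w : V) :
    ‖functional H w‖ ≤ Real.sqrt K * Real.sqrt (H w w).re := by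
  refine ContinuousLinearMap.opNorm_le_bound _ (by positivity) fun z => ?_
  rw [functional_apply]
  refine (cauchy' h hn z w).trans ?_
  have h1 : Real.sqrt (H z z).re ≤ Real.sqrt K * ‖z‖ := by
    have h2 : (H z z).re ≤ K * ‖z‖ ^ 2 := by
      refine (Complex.re_le_norm _).trans ((hb z z).trans (le_of_eq ?_))
      ring
    calc Real.sqrt (H z z).re ≤ Real.sqrt (K * ‖z‖ ^ 2) := Real.sqrt_le_sqrt h2
      _ = Real.sqrt K * ‖z‖ := by
        rw [Real.sqrt_mul hK.le, Real.sqrt_sq (norm_nonneg z)]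
  calc Real.sqrt (H z z).re * Real.sqrt (H w w).re
      ≤ Real.sqrt K * ‖z‖ * Real.sqrt (H w w).re := by gcongr
    _ = _ := by ring

theorem hasFDerivAt_term (c : ℂ) (w z : V) :
    HasFDerivAt (term H w c) ((term H w c z) • (-(Real.pi : ℂ) • functional H w)) z := by
  have h1 : HasFDerivAt (fun z => -(Real.pi * H z w) - Real.pi / 2 * H w w)
      (-(Real.pi : ℂ) • functional H w) z := by
    have h2 : HasFDerivAt (fun z => functional H w z) (functional H w) z :=
      (functional H w).hasFDerivAt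
    have h3 := (h2.const_mul (-(Real.pi : ℂ))).sub_const (Real.pi / 2 * H w w)
    refine h3.congr_of_eventuallyEq (Filter.Eventually.of_forall fun x => ?_)
    simp only [functional_apply]
    ring
  have h4 := (h1.cexp).const_mul c
  refine h4.congr_fderiv ?_
  rw [smul_smul]
  rfl

/-- the theta series -/
noncomputable def theta (H : V →ₗ[ℂ] V →ₗ⋆[ℂ] ℂ) {r : ℕ} (v : Fin r → V)
    (c : (Fin r → ℤ) → ℂ) (z : V) : ℂ :=
  ∑' n, term H (comb v n) (c n) z

omit [FiniteDimensional ℂ V] in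
theorem summable_term (h : Herm H) (hn : Nef H) {r : ℕ} {v : Fin r → V}
    (hs : ∀ a : ℝ, 0 < a →
      Summable fun n : Fin r → ℤ => Real.exp (-a * (H (comb v n) (comb v n)).re))
    {c : (Fin r → ℤ) → ℂ} (hc : ∀ n, ‖c n‖ = 1) (z : V) :
    Summable fun n => term H (comb v n) (c n) z := by
  refine Summable.of_norm_bounded ((hs (Real.pi / 4) (by positivity)).mul_left
    (Real.exp (Real.pi * (H z z).re))) fun n => ?_
  exact norm_term_le h hn _ (hc n) _ _

theorem differentiable_theta (h : Herm H) (hn : Nef H) {r : ℕ} {v : Fin r → V}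
    (hs : ∀ a : ℝ, 0 < a →
      Summable fun n : Fin r → ℤ => Real.exp (-a * (H (comb v n) (comb v n)).re))
    {c : (Fin r → ℤ) → ℂ} (hc : ∀ n, ‖c n‖ = 1) :
    Differentiable ℂ (theta H v c) := by
  obtain ⟨K, hK, hb⟩ := exists_bound H
  intro z₀
  set R : ℝ := ‖z₀‖ + 1 with hR
  have hz₀ : z₀ ∈ Metric.ball (0 : V) R := by simp [hR]
  have h0 : (0 : V) ∈ Metric.ball (0 : V) R := by
    have : 0 < R := by positivity
    simpa using this
  refine (hasFDerivAt_tsum_of_isPreconnected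
    (u := fun n : Fin r → ℤ => Real.exp (Real.pi * (K * R ^ 2)) * (Real.pi * Real.sqrt K) *
      Real.exp (-(Real.pi / 8) * (H (comb v n) (comb v n)).re))
    ((hs (Real.pi / 8) (by positivity)).mul_left _) Metric.isOpen_ball
    (convex_ball (0 : V) R).isPreconnected
    (fun n z _ => hasFDerivAt_term (c n) (comb v n) z) ?_ h0
    (summable_term h hn hs hc 0) hz₀).differentiableAt
  intro n z hz
  rw [mem_ball_zero_iff] at hz
  set w := comb v n
  have h1 := norm_term_le h hn (c n) (hc n) w z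
  have h2 := norm_functional_le hK hb h hn w
  set q := Real.sqrt (H w w).re with hq
  have hq0 : 0 ≤ q := Real.sqrt_nonneg _
  have hqq : q ^ 2 = (H w w).re := Real.sq_sqrt (hn w)
  have h3 : (H z z).re ≤ K * R ^ 2 := by
    refine (Complex.re_le_norm _).trans ((hb z z).trans ?_)
    calc K * ‖z‖ * ‖z‖ = K * ‖z‖ ^ 2 := by ring
      _ ≤ K * R ^ 2 := by gcongr
  have h4 : q ≤ Real.exp (Real.pi / 8 * q ^ 2) := by
    have h5 := Real.add_one_le_exp (Real.pi / 8 * q ^ 2)
    have h6 := Real.pi_gt_three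
    nlinarith [sq_nonneg (q / 2 - 1), sq_nonneg q]
  have h5 : q * Real.exp (-(Real.pi / 4) * (H w w).re) ≤
      Real.exp (-(Real.pi / 8) * (H w w).re) := by
    calc q * Real.exp (-(Real.pi / 4) * (H w w).re)
        ≤ Real.exp (Real.pi / 8 * q ^ 2) * Real.exp (-(Real.pi / 4) * (H w w).re) := by
          gcongr
      _ = Real.exp (-(Real.pi / 8) * (H w w).re) := by
          rw [← Real.exp_add, hqq]
          congr 1
          ring
  rw [norm_smul, norm_smul, norm_neg, Complex.norm_real, Real.norm_of_nonneg Real.pi_pos.le]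
  calc ‖term H w (c n) z‖ * (Real.pi * ‖functional H w‖)
      ≤ (Real.exp (Real.pi * (H z z).re) * Real.exp (-(Real.pi / 4) * (H w w).re)) *
          (Real.pi * (Real.sqrt K * q)) := by gcongr
    _ = Real.exp (Real.pi * (H z z).re) * (Real.pi * Real.sqrt K) *
          (q * Real.exp (-(Real.pi / 4) * (H w w).re)) := by ring
    _ ≤ _ := by gcongr

end Pool.Agent.SYZ52
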